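import Pool.Agent.P.MP_90314f_co.Op

/-! Few patterns up to translation by a subgroup give an annihilating product of differences. -/

set_option autoImplicit false

namespace Pool.Agent.P.MP_90314f_co

open AddMonoidAlgebra

variable {G : Type} [AddCommGroup G]

/-- The group of periods. -/
def Per {V : Type} (c : G → V) : AddSubgroup G where
  carrier := {w | ∀ x, c (x + w) = c x}
  add_mem' := fun {a b} ha hb x => by rw [← add_assoc, hb, ha]
  zero_mem' := fun x => by rw [add_zero]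
  neg_mem' := fun {a} ha x => by rw [← ha (x + -a), neg_add_cancel_right]

theorem mem_Per {V : Type} {c : G → V} {w : G} : w ∈ Per c ↔ ∀ x, c (x + w) = c x := Iff.rfl

/-- The product of the difference operators. -/
noncomputable def dif (ws : Multiset G) : AddMonoidAlgebra ℂ G :=
  (ws.map fun w => single w (1 : ℂ) - 1).prod

theorem dif_zero : dif (0 : Multiset G) = 1 := by simp [dif]

theorem dif_cons (w : G) (ws : Multiset G) : dif (w ::ₘ ws) = (single w 1 - 1) * dif ws := by
  simp [dif]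

theorem dif_add (s t : Multiset G) : dif (s + t) = dif s * dif t := by simp [dif]

theorem act_diff (w : G) (c : G → ℂ) (x : G) :
    act ℂ (single w 1 - 1) c x = c (x + w) - c x := by
  rw [map_sub, map_one, LinearMap.sub_apply, Pi.sub_apply, act_single, one_mul]
  rfl

theorem diff_mem_Ann {w : G} {c : G → ℂ} : single w 1 - 1 ∈ Ann c ↔ w ∈ Per c := by
  rw [mem_Ann, mem_Per, funext_iff]
  simp only [act_diff, Pi.zero_apply, sub_eq_zero]

/-- Integer valued with finitely many values. -/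
def IntFin (c : G → ℂ) : Prop := (Set.range c).Finite ∧ ∀ x, ∃ n : ℤ, c x = n

theorem isUnit_single (g : G) : IsUnit (single g (1 : ℂ)) :=
  IsUnit.of_mul_eq_one (single (-g) 1) (by rw [single_mul_single]; simp [one_def])

/-- The component of a single character. -/
theorem ann_char (S : AddSubgroup G) (hsat : ∀ k : ℕ, 0 < k → ∀ x, k • x ∈ S → x ∈ S)
    (η : G → ℤ) (B : ℕ) (hB : ∀ x, |η x| ≤ B) {T : Type} [AddCommGroup T] [Fintype T]
    (π : S →+ T) (out : T → S) (hout : ∀ τ, π (out τ) = τ)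
    (hπ : ∀ s : S, π s = 0 → (s : G) ∈ Per η) (χ : AddChar T ℂ)
    {J ι : Type} [Fintype J] (u : J → G) (hu : ∀ i j, u i - u j ∈ S → i = j) (F : G → ι)
    (Z : Finset ι) (hZ : ∀ z, F z ∈ Z) (hcard : Z.card < Fintype.card J)
    (hF : ∀ z z', F z = F z' → ∃ s ∈ S, ∀ j, ∀ s' ∈ S, η (z + u j + s') = η (z' + s + u j + s')) :
    ∃ ws : Multiset G, (∀ w ∈ ws, w ∉ S) ∧
      dif ws ∈ Ann (act ℂ (∑ τ, single (out τ : G) (χ (-τ))) fun x => (η x : ℂ)) := by
  classical
  set c : G → ℂ := fun x => (η x : ℂ) with hc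
  set ζ := act ℂ (∑ τ, single (out τ : G) (χ (-τ))) c with hζ
  have hζx : ∀ x, ζ x = ∑ τ, χ (-τ) * η (x + out τ) := fun x => by
    simp only [hζ, act_sum, act_single, hc]
  have hkey : ∀ x (s s' : S), π s = π s' → η (x + s) = η (x + s') := fun x s s' h => by
    have := hπ (s - s') (by rw [map_sub, h, sub_self]) (x + s')
    rw [← this]
    congr 1
    push_cast
    abel
  have hshift : ∀ x (s : S), ζ (x + s) = χ (π s) * ζ x := fun x s => by
    rw [hζx, hζx, Finset.mul_sum, ← Equiv.sum_comp (Equiv.addLeft (π s))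
      (fun τ => χ (π s) * (χ (-τ) * η (x + out τ)))]
    refine Finset.sum_congr rfl fun τ _ => ?_
    simp only [Equiv.coe_addLeft]
    rw [← mul_assoc, ← AddChar.map_add_eq_mul, show π s + -(π s + τ) = -τ by abel,
      hkey x (out (π s + τ)) (s + out τ) (by rw [hout, map_add, hout]), add_assoc]
    rfl
  obtain ⟨a, ha, j₀, hj₀⟩ : ∃ a : J → ℂ,
      ∑ j, a j • (fun i : Z => ζ (Function.invFun F i + u j)) = 0 ∧ ∃ j, a j ≠ 0 := by
    rw [← Fintype.not_linearIndependent_iff]
    intro h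
    have := h.fintype_card_le_finrank
    rw [Module.finrank_fintype_fun_eq_card, Fintype.card_coe] at this
    omega
  have ha' : ∀ z, ∑ j, a j * ζ (z + u j) = 0 := fun z => by
    obtain ⟨s, hs, h⟩ := hF z (Function.invFun F (F z)) (Function.invFun_eq ⟨z, rfl⟩).symm
    have h1 := congrFun ha ⟨F z, hZ z⟩
    simp only [Finset.sum_apply, Pi.smul_apply, smul_eq_mul, Pi.zero_apply] at h1
    have h2 : ∀ j, ζ (z + u j) = χ (π ⟨s, hs⟩) * ζ (Function.invFun F (F z) + u j) := fun j => by
      rw [← hshift, hζx, hζx]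
      refine Finset.sum_congr rfl fun τ _ => ?_
      rw [h j _ (out τ).2, add_right_comm _ s]
    simp only [h2, mul_left_comm _ (χ _)]
    rw [← Finset.mul_sum, h1, mul_zero]
  obtain ⟨A, hA, hA0⟩ := exists_int_rel (fun p : J × T => a p.1 * χ (-p.2))
    (fun z p => η (z + (u p.1 + out p.2))) (fun z => by
      rw [← ha' z, Fintype.sum_prod_type]
      refine Finset.sum_congr rfl fun j _ => ?_
      rw [hζx, Finset.mul_sum]
      exact Finset.sum_congr rfl fun τ _ => by rw [add_assoc, mul_assoc])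
    (fun τ => (j₀, τ)) χ (by
      simp only [mul_assoc, ← AddChar.map_add_eq_mul, neg_add_cancel, AddChar.map_zero_eq_one]
      simp [hj₀])
  obtain ⟨r, hr, hTr, hfr⟩ := frob A (fun p => u p.1 + out p.2) η B hB hA (Fintype.card T)
    Fintype.card_pos
  have hper : ∀ τ, r • (out τ : G) ∈ Per η := fun τ => by
    have := hπ (r • out τ) (by
      obtain ⟨m, rfl⟩ := hTr
      rw [map_nsmul, mul_comm, mul_smul, card_nsmul_eq_zero, smul_zero])
    simpa using this
  let a' : J → AddMonoidAlgebra ℂ G := fun j => ∑ τ, single (u j + out τ) (A (j, τ) : ℂ)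
  let y : J → AddMonoidAlgebra ℂ G := fun j => single (r • u j) 1
  have hel := elim (Ann c) y j₀ (Finset.univ.erase j₀) (Finset.notMem_erase _ _) a' fun k => by
    rw [Finset.add_sum_erase _ (fun j => a' j * y j ^ k) (Finset.mem_univ j₀), mem_Ann]
    ext x
    have h1 := congrArg (Int.cast : ℤ → ℂ) (hfr k x)
    push_cast at h1
    rw [Pi.zero_apply, ← h1, act_sum, Fintype.sum_prod_type]
    refine Finset.sum_congr rfl fun j _ => ?_
    simp only [a', y, single_pow, Finset.sum_mul, single_mul_single, act_sum, act_single, one_pow,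
      mul_one, hc]
    refine Finset.sum_congr rfl fun τ _ => ?_
    rw [← (Per η).nsmul_mem (hper τ) k (x + (u j + out τ + k • r • u j))]
    congr 3
    simp only [add_smul, one_smul, mul_smul, smul_add]
    abel
  have hel' := Ann_le c (∑ τ, single (out τ : G) (χ (-τ))) hel
  rw [← hζ, mul_comm, ← mem_Ann_act] at hel'
  have hκ : act ℂ (a' j₀) ζ =
      (∑ τ, (A (j₀, τ) : ℂ) * χ τ) • act ℂ (single (u j₀) 1) ζ := by
    ext x
    simp only [a', act_sum, act_single, Pi.smul_apply, smul_eq_mul, one_mul, Finset.sum_mul]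
    refine Finset.sum_congr rfl fun τ _ => ?_
    rw [← add_assoc, hshift, hout, mul_assoc]
  rw [hκ, mem_Ann, map_smul, smul_eq_zero, or_iff_right hA0, ← mem_Ann, mem_Ann_act] at hel'
  refine ⟨(Finset.univ.erase j₀).val.map fun j => r • (u j₀ - u j), ?_, ?_⟩
  · intro w hw
    obtain ⟨j, hj, rfl⟩ := Multiset.mem_map.1 hw
    exact fun h => (Finset.mem_erase.1 hj).1 (hu _ _ (hsat r hr _ h)).symm
  · have h1 : ∏ j ∈ Finset.univ.erase j₀, (y j₀ - y j) =
        dif ((Finset.univ.erase j₀).val.map fun j => r • (u j₀ - u j)) *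
          ∏ j ∈ Finset.univ.erase j₀, y j := by
      rw [dif, Multiset.map_map, ← Finset.prod_eq_multiset_prod, ← Finset.prod_mul_distrib]
      refine Finset.prod_congr rfl fun j _ => ?_
      simp only [y, Function.comp, sub_mul, one_mul, single_mul_single, smul_sub, sub_add_cancel]
    rw [h1, mul_assoc] at hel'
    exact (Ideal.mul_unit_mem_iff_mem _ ((IsUnit.prod_iff.2 fun j _ => isUnit_single _).mul
      (isUnit_single _))).1 hel'

theorem lemA (S : AddSubgroup G) (hsat : ∀ k : ℕ, 0 < k → ∀ x, k • x ∈ S → x ∈ S)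
    (c : G → ℂ) (hc : IntFin c) (hfin : Finite (S ⧸ (Per c).addSubgroupOf S))
    {J ι : Type} [Fintype J] (u : J → G) (hu : ∀ i j, u i - u j ∈ S → i = j) (F : G → ι)
    (Z : Finset ι) (hZ : ∀ z, F z ∈ Z) (hcard : Z.card < Fintype.card J)
    (hF : ∀ z z', F z = F z' → ∃ s ∈ S, ∀ j, ∀ s' ∈ S, c (z + u j + s') = c (z' + s + u j + s')) :
    ∃ ws : Multiset G, (∀ w ∈ ws, w ∉ S) ∧ dif ws ∈ Ann c := by
  classical
  choose η hη using hc.2
  obtain ⟨B, hB⟩ : ∃ B : ℕ, ∀ x, |η x| ≤ B := by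
    obtain ⟨B, hB⟩ := (hc.1.image fun z : ℂ => ‖z‖).bddAbove
    refine ⟨⌈B⌉₊, fun x => ?_⟩
    have h1 : ‖c x‖ ≤ B := hB ⟨_, ⟨x, rfl⟩, rfl⟩
    rw [hη, Complex.norm_intCast] at h1
    exact_mod_cast h1.trans (Nat.le_ceil B)
  obtain rfl : c = fun x => (η x : ℂ) := funext hη
  let T := S ⧸ (Per fun x => (η x : ℂ)).addSubgroupOf S
  have : Fintype T := Fintype.ofFinite T
  have hπ : ∀ s : S, QuotientAddGroup.mk' _ s = (0 : T) → (s : G) ∈ Per η := fun s h x => by
    have h1 : (η (x + s) : ℂ) = η x := (QuotientAddGroup.eq_zero_iff s).1 h x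
    exact_mod_cast h1
  have hout : ∀ τ : T, QuotientAddGroup.mk' _ τ.out = τ := fun τ => τ.out_eq
  have h1 := fun χ : AddChar T ℂ => ann_char S hsat η B hB (QuotientAddGroup.mk' _)
    (fun τ : T => τ.out) hout hπ χ u hu F Z hZ hcard fun z z' h => by
      obtain ⟨s, hs, h2⟩ := hF z z' h
      exact ⟨s, hs, fun j s' hs' => Int.cast_injective (α := ℂ) (h2 j s' hs')⟩
  choose ws hws hann using h1
  refine ⟨∑ χ, ws χ, fun w hw => ?_, ?_⟩
  · obtain ⟨χ, -, h⟩ := Multiset.mem_sum.1 hw
    exact hws χ w h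
  · have h2 : ∀ χ : AddChar T ℂ, dif (∑ χ, ws χ) * ∑ τ : T, single (τ.out : G) (χ (-τ)) ∈
        Ann fun x => (η x : ℂ) := fun χ => by
      rw [← mem_Ann_act, ← Finset.add_sum_erase _ _ (Finset.mem_univ χ), dif_add]
      exact Ideal.mul_mem_right _ _ (hann χ)
    have h3 := Ideal.sum_mem _ fun χ (_ : χ ∈ Finset.univ) => h2 χ
    rw [← Finset.mul_sum, ← mem_Ann_act] at h3
    have h4 : act ℂ (∑ χ : AddChar T ℂ, ∑ τ : T, single (τ.out : G) (χ (-τ)))
        (fun x => (η x : ℂ)) = (Fintype.card T : ℂ) • fun x => (η x : ℂ) := by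
      ext x
      simp only [act_sum, act_single, Pi.smul_apply, smul_eq_mul]
      rw [Finset.sum_comm]
      simp only [← Finset.sum_mul, AddChar.sum_apply_eq_ite, neg_eq_zero]
      rw [Finset.sum_eq_single (0 : T) (fun τ _ h => by rw [if_neg h, zero_mul]) (by simp),
        if_pos rfl, hπ _ (hout 0) x]
    rw [h4, mem_Ann, map_smul, smul_eq_zero] at h3
    exact h3.resolve_left (Nat.cast_ne_zero.2 Fintype.card_ne_zero)

end Pool.Agent.P.MP_90314f_co
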