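import Pool.Agent.P.MP_90314f_co.Defs

/-! A Delone set of finite local complexity is mapped to the integer lattice by an almost
isometric address map. -/

set_option autoImplicit false

namespace Pool.Agent.P.MP_90314f_co

variable {d : ℕ}

/-- Euclidean space. -/
abbrev E (d : ℕ) := EuclideanSpace ℝ (Fin d)

/-- The embedding of the integer lattice. -/
noncomputable def cr : (Fin d → ℤ) →+ E d where
  toFun x := WithLp.toLp 2 fun i => (x i : ℝ)
  map_zero' := by ext i; simp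
  map_add' x y := by ext i; simp

@[simp] theorem cr_apply (x : Fin d → ℤ) (i : Fin d) : cr x i = x i := rfl

/-- Rounding down. -/
noncomputable def flo (v : E d) : Fin d → ℤ := fun i => ⌊v i⌋

theorem norm_flo (v : E d) : ‖cr (flo v) - v‖ ≤ d := by
  rw [EuclideanSpace.norm_eq, Real.sqrt_le_iff]
  refine ⟨Nat.cast_nonneg d, ?_⟩
  have h1 : ∀ i, ‖(cr (flo v) - v) i‖ ^ 2 ≤ 1 := fun i => by
    have h2 := Int.floor_le (v i)
    have h3 := Int.lt_floor_add_one (v i)
    simp only [PiLp.sub_apply, cr_apply, flo, Real.norm_eq_abs, sq_abs]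
    nlinarith
  refine (Finset.sum_le_sum fun i _ => h1 i).trans ?_
  simp only [Finset.sum_const, Finset.card_univ, Fintype.card_fin, nsmul_eq_mul, mul_one]
  exact_mod_cast Nat.le_self_pow two_ne_zero d

/-- The patch of radius `t` at `x`. -/
def pat (X : Set (E d)) (x : E d) (t : ℝ) : Set (E d) :=
  (fun y => y - x) '' (X ∩ Metric.closedBall x t)

theorem mem_pat {X : Set (E d)} {x v : E d} {t : ℝ} : v ∈ pat X x t ↔ x + v ∈ X ∧ ‖v‖ ≤ t := by
  constructor
  · rintro ⟨y, ⟨h1, h2⟩, rfl⟩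
    rw [Metric.mem_closedBall, dist_eq_norm] at h2
    exact ⟨by simpa using h1, h2⟩
  · rintro ⟨h1, h2⟩
    exact ⟨x + v, ⟨h1, by simpa [dist_eq_norm] using h2⟩, by simp⟩

theorem mem_patches {X : Set (E d)} {t : ℝ} {P : Set (E d)} :
    P ∈ patches X t ↔ ∃ x ∈ X, P = pat X x t := Iff.rfl

theorem pat_move {X : Set (E d)} {x x' v : E d} {s t : ℝ} (h : pat X x t = pat X x' t)
    (hv : ‖v‖ + s ≤ t) : pat X (x + v) s = pat X (x' + v) s := by
  ext w
  rw [mem_pat, mem_pat]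
  refine and_congr_left fun hw => ?_
  have h1 : ‖v + w‖ ≤ t := (norm_add_le v w).trans (by linarith)
  have h2 := Set.ext_iff.1 h (v + w)
  rw [mem_pat, mem_pat] at h2
  rw [add_assoc, add_assoc]
  tauto

theorem patches_finite_mono {X : Set (E d)} {s t : ℝ} (h : (patches X t).Finite) (hst : s ≤ t) :
    (patches X s).Finite := by
  refine (h.image fun P => P ∩ Metric.closedBall 0 s).subset ?_
  rintro _ ⟨x, hx, rfl⟩
  refine ⟨pat X x t, ⟨x, hx, rfl⟩, ?_⟩
  ext v
  change _ ↔ v ∈ pat X x s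
  simp only [Set.mem_inter_iff, mem_pat, mem_closedBall_zero_iff]
  exact ⟨fun h => ⟨h.1.1, h.2⟩, fun h => ⟨⟨h.1, h.2.trans hst⟩, h.2⟩⟩

variable {X : Set (E d)} {r R : ℝ}

theorem IsDelone.pat_finite (h : IsDelone r R X) (hr : 0 < r) (x : E d) (t : ℝ) :
    (pat X x t).Finite := by
  refine Set.Finite.image _ ?_
  obtain ⟨T, hT, hsub⟩ := Metric.totallyBounded_iff.1
    (isCompact_closedBall x t).totallyBounded r hr
  refine (hT.biUnion (t := fun y => X ∩ Metric.ball y r) fun y _ =>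
    Set.Subsingleton.finite fun a ha b hb => ?_).subset ?_
  · by_contra hab
    have h1 := h.1 a ha.1 b hb.1 hab
    have h2 := dist_triangle_right a b y
    have h3 := Metric.mem_ball.1 ha.2
    have h4 := Metric.mem_ball.1 hb.2
    linarith
  · rintro a ⟨ha, ha'⟩
    obtain ⟨y, hy, h1⟩ := Set.mem_iUnion₂.1 (hsub ha')
    exact Set.mem_iUnion₂.2 ⟨y, hy, ha, h1⟩

theorem IsDelone.chain (h : IsDelone r R X) (hR : 0 < R) {y : E d} (hy : y ∈ X)
    (P : E d → ℕ → Prop) (hbase : ∀ k, P y k)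
    (hstep : ∀ x ∈ X, ∀ x' ∈ X, ‖x' - x‖ ≤ 3 * R → ∀ k, P x' k → P x (k + 1)) (k : ℕ) :
    ∀ x ∈ X, ‖y - x‖ ≤ k * R → P x k := by
  induction k with
  | zero =>
    intro x _ hx
    rw [Nat.cast_zero, zero_mul, norm_le_zero_iff, sub_eq_zero] at hx
    exact hx ▸ hbase 0
  | succ k ih =>
    intro x hx hk
    by_cases h3 : ‖y - x‖ ≤ 3 * R
    · exact hstep x hx y hy h3 k (hbase k)
    have h4 : 0 < ‖y - x‖ := by linarith
    obtain ⟨x', hx', h5⟩ := h.2 (x + (2 * R / ‖y - x‖) • (y - x))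
    rw [dist_eq_norm] at h5
    have h6 : ‖(2 * R / ‖y - x‖) • (y - x)‖ = 2 * R := by
      rw [norm_smul, Real.norm_of_nonneg (by positivity), div_mul_cancel₀ _ h4.ne']
    have h7 : ‖(1 - 2 * R / ‖y - x‖) • (y - x)‖ = ‖y - x‖ - 2 * R := by
      rw [norm_smul, Real.norm_of_nonneg, sub_mul, one_mul, div_mul_cancel₀ _ h4.ne']
      rw [sub_nonneg, div_le_one h4]
      linarith
    refine hstep x hx x' hx' ?_ k (ih x' hx' ?_)
    · have : x' - x = (2 * R / ‖y - x‖) • (y - x) - (x + (2 * R / ‖y - x‖) • (y - x) - x') := by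
        abel
      rw [this]
      refine (norm_sub_le _ _).trans ?_
      linarith
    · have : y - x' = (1 - 2 * R / ‖y - x‖) • (y - x) +
          (x + (2 * R / ‖y - x‖) • (y - x) - x') := by
        rw [sub_smul, one_smul]
        abel
      rw [this]
      refine (norm_add_le _ _).trans ?_
      push_cast at hk
      linarith

theorem IsDelone.chain' (h : IsDelone r R X) (hR : 0 < R) {y : E d} (hy : y ∈ X)
    (P : E d → Prop) (hbase : P y)
    (hstep : ∀ x ∈ X, ∀ x' ∈ X, ‖x' - x‖ ≤ 3 * R → P x' → P x) : ∀ x ∈ X, P x := fun x hx =>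
  h.chain hR hy (fun x _ => P x) (fun _ => hbase) (fun x hx x' hx' h1 _ => hstep x hx x' hx' h1)
    ⌈‖y - x‖ / R⌉₊ x hx ((div_le_iff₀ hR).1 (Nat.le_ceil _))

theorem IsDelone.approx (h : IsDelone r R X) (hr : 0 < r) (hR : 0 < R)
    (hfin : (patches X (3 * R)).Finite) (q₀ : ℝ) :
    ∃ q : ℝ, q₀ ≤ q ∧ ∃ Φ : E d → Fin d → ℤ,
      (∀ x ∈ X, ∀ y ∈ X, ∀ x' ∈ X, ∀ y' ∈ X, y - x = y' - x' → Φ y - Φ x = Φ y' - Φ x') ∧
      ∀ x ∈ X, ∀ y ∈ X, ‖cr (Φ y - Φ x) - q • (y - x)‖ ≤ q / 10 * ‖y - x‖ := by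
  classical
  let A : Set (E d) := {v | ∃ x ∈ X, x + v ∈ X ∧ ‖v‖ ≤ 3 * R}
  have hA : A.Finite := by
    refine (hfin.biUnion (t := fun P => P) ?_).subset ?_
    · rintro _ ⟨x, -, rfl⟩
      exact h.pat_finite hr x _
    · rintro v ⟨x, hx, hv⟩
      exact Set.mem_iUnion₂.2 ⟨pat X x (3 * R), ⟨x, hx, rfl⟩, mem_pat.2 hv⟩
  let M : Submodule ℤ (E d) := Submodule.span ℤ A
  have : Module.Finite ℤ M := Module.Finite.span_of_finite ℤ hA
  have : IsAddTorsionFree (E d) := IsAddTorsionFree.of_module_rat (E d)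
  let b := Module.Free.chooseBasis ℤ M
  have hshort : ∀ x ∈ X, ∀ x' ∈ X, ‖x' - x‖ ≤ 3 * R → x' - x ∈ A := fun x hx x' hx' h1 =>
    ⟨x, hx, by simpa using hx', h1⟩
  have hM : ∀ x ∈ X, ∀ y ∈ X, y - x ∈ M := fun x hx y hy =>
    h.chain' hR hy (fun x => y - x ∈ M) (by simp) (fun x hx x' hx' h1 h2 => by
      have := M.add_mem h2 (Submodule.subset_span (hshort x hx x' hx' h1))
      rwa [sub_add_sub_cancel] at this) x hx
  obtain ⟨C, hC0, hC⟩ : ∃ C : ℝ, 0 ≤ C ∧ ∀ v : M, (v : E d) ∈ A →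
      ∑ i, |(b.repr v i : ℝ)| * d ≤ C := by
    obtain ⟨C, hC⟩ := ((hA.preimage (f := ((↑) : M → E d)) Subtype.val_injective.injOn).image
      fun v : M => ∑ i, |(b.repr v i : ℝ)| * d).bddAbove
    exact ⟨max C 0, le_max_right _ _, fun v hv => (hC ⟨v, hv, rfl⟩).trans (le_max_left _ _)⟩
  obtain ⟨x₀, hx₀, -⟩ := h.2 0
  refine ⟨max q₀ (10 * (C * (1 / R + 1 / (2 * r)))), le_max_left _ _, ?_⟩
  generalize hq : max q₀ (10 * (C * (1 / R + 1 / (2 * r)))) = q
  have hq' : C * (1 / R + 1 / (2 * r)) ≤ q / 10 := by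
    have := le_max_right q₀ (10 * (C * (1 / R + 1 / (2 * r))))
    linarith
  let φ : M →ₗ[ℤ] Fin d → ℤ := b.constr ℤ fun i => flo (q • (b i : E d))
  have hφ : ∀ v : M, (v : E d) ∈ A → ‖cr (φ v) - q • (v : E d)‖ ≤ C := fun v hv => by
    refine le_trans ?_ (hC v hv)
    have h1 : cr (φ v) - q • (v : E d) =
        ∑ i, b.repr v i • (cr (flo (q • (b i : E d))) - q • (b i : E d)) := by
      conv_lhs => rw [← b.sum_repr v]
      simp only [φ, map_sum, map_zsmul, Module.Basis.constr_basis, Submodule.coe_sum,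
        Submodule.coe_smul_of_tower, Finset.smul_sum, smul_sub, Finset.sum_sub_distrib,
        smul_comm q]
    rw [h1]
    refine (norm_sum_le _ _).trans (Finset.sum_le_sum fun i _ => ?_)
    rw [← Int.cast_smul_eq_zsmul ℝ, norm_smul, Real.norm_eq_abs]
    exact mul_le_mul_of_nonneg_left (norm_flo _) (abs_nonneg _)
  let Φ : E d → Fin d → ℤ := fun x => if hx : x - x₀ ∈ M then φ ⟨x - x₀, hx⟩ else 0
  have hΦ : ∀ x (hx : x ∈ X) y (hy : y ∈ X), Φ y - Φ x = φ ⟨y - x, hM x hx y hy⟩ :=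
    fun x hx y hy => by
      simp only [Φ, dif_pos (hM x₀ hx₀ x hx), dif_pos (hM x₀ hx₀ y hy), ← map_sub]
      congr 1
      ext1
      simp
  refine ⟨Φ, fun x hx y hy x' hx' y' hy' e => ?_, fun x hx y hy => ?_⟩
  · rw [hΦ x hx y hy, hΦ x' hx' y' hy']
    congr 1
    exact Subtype.ext e
  · by_cases hxy : x = y
    · simp [hxy]
    have h1 := h.chain hR hy (fun x k => ‖cr (Φ y - Φ x) - q • (y - x)‖ ≤ C * k)
      (fun k => by simp only [sub_self, map_zero, smul_zero, norm_zero]; positivity)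
      (fun x hx x' hx' h1 k h2 => by
        have h3 := hφ ⟨x' - x, hM x hx x' hx'⟩ (hshort x hx x' hx' h1)
        rw [← hΦ x hx x' hx'] at h3
        have : cr (Φ y - Φ x) - q • (y - x) =
            cr (Φ y - Φ x') - q • (y - x') + (cr (Φ x' - Φ x) - q • (x' - x)) := by
          simp only [map_sub, smul_sub]
          abel
        rw [this]
        refine (norm_add_le _ _).trans ?_
        push_cast
        linarith)
      ⌈‖y - x‖ / R⌉₊ x hx ((div_le_iff₀ hR).1 (Nat.le_ceil _))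
    have h2 := (Nat.ceil_lt_add_one (a := ‖y - x‖ / R) (by positivity)).le
    have h3 := h.1 y hy x hx (Ne.symm hxy)
    rw [dist_eq_norm] at h3
    have h4 : 1 ≤ 1 / (2 * r) * ‖y - x‖ := by
      rw [one_div, inv_mul_eq_div, le_div_iff₀ (by positivity)]
      linarith
    calc _ ≤ C * (‖y - x‖ / R + 1) := h1.trans (mul_le_mul_of_nonneg_left h2 hC0)
      _ ≤ C * ((1 / R + 1 / (2 * r)) * ‖y - x‖) := by
        refine mul_le_mul_of_nonneg_left ?_ hC0
        rw [add_mul, one_div R, inv_mul_eq_div]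
        linarith
      _ ≤ q / 10 * ‖y - x‖ := by
        rw [← mul_assoc]
        exact mul_le_mul_of_nonneg_right hq' (norm_nonneg _)

end Pool.Agent.P.MP_90314f_co
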