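import Mathlib

/-!
Combinatorial core of the counterexample in dimension three.
The marked points of the integer lattice lie in the layers of height `4 ^ k`; in layer `k` they form
parallel lines with spacing `2 ^ k`, whose direction alternates with the parity of `k`.
-/

set_option autoImplicit false

namespace Pool.Agent.P.MP_90314f_co

/-- The marked (removed) lattice points. -/
def mark (x y z : ℤ) : Prop :=
  ∃ k : ℕ, z = 4 ^ k ∧ (2 : ℤ) ^ k ∣ (if Even k then x else y)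

/-- The marked patterns in the cubes of radius `n` around `p` and `q` agree. -/
def Same (n : ℕ) (p q : ℤ × ℤ × ℤ) : Prop :=
  ∀ u v w : ℤ, |u| ≤ n → |v| ≤ n → |w| ≤ n →
    (mark (p.1 + u) (p.2.1 + v) (p.2.2 + w) ↔ mark (q.1 + u) (q.2.1 + v) (q.2.2 + w))

lemma Same.symm {n : ℕ} {p q : ℤ × ℤ × ℤ} (h : Same n p q) : Same n q p :=
  fun u v w hu hv hw => (h u v w hu hv hw).symm

lemma pow_gap {K j k : ℕ} (hj : K < j) (hne : k ≠ j) :
    3 * (4 : ℤ) ^ K ≤ |(4 : ℤ) ^ j - 4 ^ k| := by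
  rcases lt_or_gt_of_ne hne with h | h
  · obtain ⟨i, rfl⟩ : ∃ i, j = i + 1 := ⟨j - 1, by omega⟩
    have h1 : (4 : ℤ) ^ k ≤ 4 ^ i := pow_le_pow_right₀ (by norm_num) (by omega)
    have h2 : (4 : ℤ) ^ K ≤ 4 ^ i := pow_le_pow_right₀ (by norm_num) (by omega)
    have h3 : (4 : ℤ) ^ (i + 1) = 4 * 4 ^ i := by ring
    exact le_trans (by linarith) (le_abs_self _)
  · have h1 : (4 : ℤ) ^ (j + 1) ≤ 4 ^ k := pow_le_pow_right₀ (by norm_num) (by omega)
    have h2 : (4 : ℤ) ^ K ≤ 4 ^ j := pow_le_pow_right₀ (by norm_num) (by omega)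
    have h3 : (4 : ℤ) ^ (j + 1) = 4 * 4 ^ j := by ring
    exact le_trans (by linarith) (neg_le_abs _)

/-- A window that sees a high layer sees only that layer. -/
lemma mark_iff_single {n K j : ℕ} (hn : (n : ℤ) < 4 ^ K) (hj : K < j) {x y z w : ℤ}
    (hz : |z - 4 ^ j| ≤ n) (hw : |w| ≤ n) :
    mark x y (z + w) ↔ (z + w = 4 ^ j ∧ (2 : ℤ) ^ j ∣ (if Even j then x else y)) := by
  constructor
  · rintro ⟨k, hk, hd⟩
    by_cases hkj : k = j
    · subst hkj; exact ⟨hk, hd⟩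
    · exfalso
      have h1 := pow_gap hj hkj
      have h2 : |(4 : ℤ) ^ j - 4 ^ k| ≤ 2 * n := by
        rw [← hk]
        rw [abs_le] at hz hw ⊢
        constructor <;> linarith [hz.1, hz.2, hw.1, hw.2]
      have h3 : (0 : ℤ) ≤ n := Int.natCast_nonneg n
      linarith
  · rintro ⟨hk, hd⟩
    exact ⟨j, hk, hd⟩

lemma eq_zero_of_dvd_of_lt {a m : ℤ} (h : m ∣ a) (hlt : |a| < m) : a = 0 :=
  Int.eq_zero_of_abs_lt_dvd h hlt

/-- One-dimensional replacement of a long period by a shorter, still long, period. -/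
lemma line_replace {n j i : ℕ} (hij : i ≤ j) (hi : i = j ∨ 2 * (n : ℤ) + 1 < 2 ^ i) (s : ℤ) :
    ∃ s' : ℤ, ∀ u : ℤ, |u| ≤ n → ((2 : ℤ) ^ j ∣ s + u ↔ (2 : ℤ) ^ i ∣ s' + u) := by
  rcases hi with rfl | hi
  · exact ⟨s, fun _ _ => Iff.rfl⟩
  have hj : 2 * (n : ℤ) + 1 < 2 ^ j :=
    lt_of_lt_of_le hi (pow_le_pow_right₀ (by norm_num) hij)
  by_cases h : ∃ u₀ : ℤ, |u₀| ≤ n ∧ (2 : ℤ) ^ j ∣ s + u₀
  · obtain ⟨u₀, hu₀, hd⟩ := h
    refine ⟨-u₀, fun u hu => ?_⟩
    have hb : |u - u₀| ≤ 2 * n := by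
      rw [abs_le] at hu hu₀ ⊢
      constructor <;> linarith [hu.1, hu.2, hu₀.1, hu₀.2]
    constructor
    · intro h1
      have h2 : (2 : ℤ) ^ j ∣ u - u₀ := by
        have := dvd_sub h1 hd
        rwa [show s + u - (s + u₀) = u - u₀ by ring] at this
      have h3 := eq_zero_of_dvd_of_lt h2 (by linarith)
      rw [show -u₀ + u = u - u₀ by ring, h3]
      exact dvd_zero _
    · intro h1
      rw [show -u₀ + u = u - u₀ by ring] at h1
      have h3 := eq_zero_of_dvd_of_lt h1 (by linarith)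
      have : u = u₀ := by linarith
      rw [this]; exact hd
  · refine ⟨n + 1, fun u hu => ?_⟩
    constructor
    · intro h1
      exact absurd ⟨u, hu, h1⟩ h
    · intro h1
      exfalso
      rw [abs_le] at hu
      have h3 := eq_zero_of_dvd_of_lt h1 (by
        rw [abs_lt]; constructor <;> linarith [hu.1, hu.2])
      linarith [hu.1]

lemma normalise (i : ℕ) (s : ℤ) :
    ∃ m : ℕ, 2 ^ i ≤ m ∧ m < 2 ^ (i + 1) ∧ (2 : ℤ) ^ i ∣ (m : ℤ) - s := by
  have hpos : (0 : ℤ) < 2 ^ i := by positivity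
  have h0 : 0 ≤ s % 2 ^ i := Int.emod_nonneg _ hpos.ne'
  have h1 : s % 2 ^ i < 2 ^ i := Int.emod_lt_of_pos _ hpos
  obtain ⟨a, ha⟩ := Int.eq_ofNat_of_zero_le h0
  refine ⟨2 ^ i + a, by omega, ?_, ?_⟩
  · have : (a : ℤ) < 2 ^ i := ha ▸ h1
    have h2 : a < 2 ^ i := by exact_mod_cast this
    rw [pow_succ]; omega
  · push_cast
    rw [← ha]
    have h2 : s % 2 ^ i = s - 2 ^ i * (s / 2 ^ i) := by
      have := Int.emod_add_mul_ediv s (2 ^ i)
      linarith
    rw [h2]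
    exact ⟨1 - s / 2 ^ i, by ring⟩

/-- Representatives of windows that see only low layers. -/
noncomputable def SA (n K : ℕ) : Finset (ℤ × ℤ × ℤ) :=
  Finset.Ico (0 : ℤ) (2 ^ K) ×ˢ Finset.Ico (0 : ℤ) (2 ^ K) ×ˢ Finset.Icc (-(n : ℤ)) (4 ^ K + n)

/-- Representatives of windows that see one high layer. -/
noncomputable def SB (n K : ℕ) : Finset (ℤ × ℤ × ℤ) :=
  ((Finset.range (2 ^ (2 * K + 4))) ×ˢ Finset.Icc (-(n : ℤ)) n).image
    (fun a : ℕ × ℤ => ((a.1 : ℤ), (a.1 : ℤ), 4 ^ (Nat.log 2 a.1) + a.2))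

lemma dvd_emod_iff {k K : ℕ} (hk : k ≤ K) (x u : ℤ) :
    (2 : ℤ) ^ k ∣ x + u ↔ (2 : ℤ) ^ k ∣ x % 2 ^ K + u := by
  have h1 : (2 : ℤ) ^ k ∣ 2 ^ K * (x / 2 ^ K) := Dvd.dvd.mul_right (pow_dvd_pow _ hk) _
  have h2 : x + u = (x % 2 ^ K + u) + 2 ^ K * (x / 2 ^ K) := by
    have := Int.emod_add_mul_ediv x (2 ^ K)
    linarith
  rw [h2]
  exact dvd_add_left h1

theorem exists_rep {n K : ℕ} (hn1 : 1 ≤ n) (hn : (n : ℤ) < 4 ^ K) (p : ℤ × ℤ × ℤ) :
    ∃ q ∈ SA n K ∪ SB n K, Same n p q := by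
  obtain ⟨x, y, z⟩ := p
  have hn0 : (1 : ℤ) ≤ n := by exact_mod_cast hn1
  have hpos : (0 : ℤ) < 2 ^ K := by positivity
  by_cases hhigh : ∃ j : ℕ, K < j ∧ |z - 4 ^ j| ≤ n
  · obtain ⟨j, hj, hz⟩ := hhigh
    obtain ⟨i, hij, hKi, hi4, hpar, hi⟩ : ∃ i : ℕ, i ≤ j ∧ K < i ∧ i + 1 ≤ 2 * K + 4 ∧
        (Even i ↔ Even j) ∧ (i = j ∨ 2 * (n : ℤ) + 1 < 2 ^ i) := by
      have hbig : ∀ i, 2 * K + 2 ≤ i → 2 * (n : ℤ) + 1 < 2 ^ i := by
        intro i hi
        have h1 : (2 : ℤ) ^ (2 * K + 2) ≤ 2 ^ i := pow_le_pow_right₀ (by norm_num) hi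
        have h2 : (2 : ℤ) ^ (2 * K + 2) = 4 * 4 ^ K := by
          rw [pow_add, pow_mul]; norm_num; ring
        linarith
      by_cases h1 : j ≤ 2 * K + 3
      · exact ⟨j, le_rfl, hj, by omega, Iff.rfl, Or.inl rfl⟩
      · by_cases h2 : Even j
        · refine ⟨2 * K + 2, by omega, by omega, by omega, ?_, Or.inr (hbig _ le_rfl)⟩
          simp only [h2, iff_true]
          exact ⟨K + 1, by ring⟩
        · refine ⟨2 * K + 3, by omega, by omega, by omega, ?_, Or.inr (hbig _ (by omega))⟩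
          simp only [h2, iff_false, Nat.not_even_iff_odd]
          exact ⟨K + 1, by ring⟩
    obtain ⟨s', hs'⟩ := line_replace hij hi (if Even j then x else y)
    obtain ⟨m, hm1, hm2, hm3⟩ := normalise i s'
    have hlog : Nat.log 2 m = i := Nat.log_eq_of_pow_le_of_lt_pow hm1 hm2
    refine ⟨((m : ℤ), (m : ℤ), 4 ^ i + (z - 4 ^ j)), ?_, ?_⟩
    · apply Finset.mem_union_right
      unfold SB
      rw [Finset.mem_image]
      refine ⟨(m, z - 4 ^ j), ?_, by simp only [hlog]⟩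
      rw [Finset.mem_product, Finset.mem_range, Finset.mem_Icc]
      refine ⟨lt_of_lt_of_le hm2 (Nat.pow_le_pow_right (by norm_num) hi4), ?_⟩
      exact abs_le.mp hz
    · intro u v w hu hv hw
      have hz' : |(4 : ℤ) ^ i + (z - 4 ^ j) - 4 ^ i| ≤ n := by
        rwa [show (4 : ℤ) ^ i + (z - 4 ^ j) - 4 ^ i = z - 4 ^ j by ring]
      simp only []
      rw [mark_iff_single hn hj hz hw, mark_iff_single hn hKi hz' hw]
      have key : ∀ t : ℤ, (2 : ℤ) ^ i ∣ s' + t ↔ (2 : ℤ) ^ i ∣ (m : ℤ) + t := by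
        intro t
        rw [show (m : ℤ) + t = (s' + t) + ((m : ℤ) - s') by ring]
        exact (dvd_add_left hm3).symm
      have e1 : (z + w = 4 ^ j) ↔ ((4 : ℤ) ^ i + (z - 4 ^ j) + w = 4 ^ i) := by
        constructor <;> intro h <;> linarith
      rw [e1]
      apply and_congr_right
      intro _
      by_cases h2 : Even j
      · have h3 : Even i := hpar.mpr h2
        simp only [h2, h3, if_true] at hs' ⊢
        rw [hs' u hu, key]
      · have h3 : ¬ Even i := fun h => h2 (hpar.mp h)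
        simp only [h2, h3, if_false] at hs' ⊢
        rw [hs' v hv, key]
  · have hlow : ∀ k : ℕ, ∀ w : ℤ, |w| ≤ n → z + w = 4 ^ k → k ≤ K := by
      intro k w hw hk
      by_contra hlt
      apply hhigh
      refine ⟨k, by omega, ?_⟩
      rw [← hk, show z - (z + w) = -w by ring, abs_neg]
      exact hw
    by_cases hz : -(n : ℤ) ≤ z ∧ z ≤ 4 ^ K + n
    · refine ⟨(x % 2 ^ K, y % 2 ^ K, z), ?_, ?_⟩
      · apply Finset.mem_union_left
        unfold SA
        simp only [Finset.mem_product, Finset.mem_Ico, Finset.mem_Icc]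
        exact ⟨⟨Int.emod_nonneg _ hpos.ne', Int.emod_lt_of_pos _ hpos⟩,
          ⟨Int.emod_nonneg _ hpos.ne', Int.emod_lt_of_pos _ hpos⟩, hz⟩
      · intro u v w hu hv hw
        simp only []
        unfold mark
        apply exists_congr
        intro k
        apply and_congr_right
        intro hk
        have hkK := hlow k w hw hk
        by_cases h2 : Even k
        · simp only [h2, if_true]
          exact dvd_emod_iff hkK x u
        · simp only [h2, if_false]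
          exact dvd_emod_iff hkK y v
    · refine ⟨(0, 0, -(n : ℤ)), ?_, ?_⟩
      · apply Finset.mem_union_left
        unfold SA
        simp only [Finset.mem_product, Finset.mem_Ico, Finset.mem_Icc]
        refine ⟨⟨le_rfl, hpos⟩, ⟨le_rfl, hpos⟩, le_rfl, ?_⟩
        linarith
      · intro u v w hu hv hw
        simp only []
        rw [abs_le] at hw
        constructor
        · rintro ⟨k, hk, -⟩
          exfalso
          have hkK := hlow k w (abs_le.mpr hw) hk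
          have h1 : (4 : ℤ) ^ k ≤ 4 ^ K := pow_le_pow_right₀ (by norm_num) hkK
          have h2 : (0 : ℤ) < 4 ^ k := by positivity
          apply hz
          constructor <;> linarith [hw.1, hw.2]
        · rintro ⟨k, hk, -⟩
          exfalso
          have h2 : (0 : ℤ) < 4 ^ k := by positivity
          linarith [hw.1, hw.2]

lemma card_SA (n K : ℕ) : (SA n K).card = 2 ^ K * (2 ^ K * (4 ^ K + 2 * n + 1)) := by
  unfold SA
  rw [Finset.card_product, Finset.card_product, Int.card_Ico, Int.card_Icc]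
  have h1 : ((2 : ℤ) ^ K - 0).toNat = 2 ^ K := by
    rw [sub_zero, show (2 : ℤ) ^ K = ((2 ^ K : ℕ) : ℤ) by push_cast; rfl, Int.toNat_natCast]
  have h2 : ((4 : ℤ) ^ K + n + 1 - -(n : ℤ)).toNat = 4 ^ K + 2 * n + 1 := by
    rw [show (4 : ℤ) ^ K + n + 1 - -(n : ℤ) = ((4 ^ K + 2 * n + 1 : ℕ) : ℤ) by push_cast; ring,
      Int.toNat_natCast]
  rw [h1, h2]

lemma card_SB (n K : ℕ) : (SB n K).card ≤ 2 ^ (2 * K + 4) * (2 * n + 1) := by
  unfold SB
  refine le_trans Finset.card_image_le ?_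
  rw [Finset.card_product, Finset.card_range, Int.card_Icc]
  have h2 : ((n : ℤ) + 1 - -(n : ℤ)).toNat = 2 * n + 1 := by
    rw [show (n : ℤ) + 1 - -(n : ℤ) = ((2 * n + 1 : ℕ) : ℤ) by push_cast; ring,
      Int.toNat_natCast]
  rw [h2]

/-- At most `220 n ^ 2` patterns of radius `n`. -/
theorem exists_reps {n : ℕ} (hn1 : 1 ≤ n) :
    ∃ S : Finset (ℤ × ℤ × ℤ), S.card ≤ 220 * n ^ 2 ∧ ∀ p, ∃ q ∈ S, Same n p q := by
  set K := Nat.log 4 n + 1 with hK
  have h1 : n < 4 ^ K := Nat.lt_pow_succ_log_self (by norm_num) n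
  have h2 : 4 ^ K ≤ 4 * n := by
    have := Nat.pow_log_le_self 4 (show n ≠ 0 by omega)
    rw [hK, pow_succ]; omega
  refine ⟨SA n K ∪ SB n K, ?_, exists_rep hn1 (by exact_mod_cast h1)⟩
  refine le_trans (Finset.card_union_le _ _) ?_
  have h3 := card_SB n K
  rw [card_SA]
  have h4 : 2 ^ K * 2 ^ K = 4 ^ K := by rw [← mul_pow]; norm_num
  have h5 : 2 ^ (2 * K + 4) = 16 * 4 ^ K := by rw [pow_add, pow_mul]; norm_num; ring
  rw [h5] at h3
  rw [← mul_assoc, h4]
  generalize 4 ^ K = A at *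
  have h6 : A * (A + 2 * n + 1) ≤ (4 * n) * (7 * n) := Nat.mul_le_mul h2 (by omega)
  have h7 : 16 * A * (2 * n + 1) ≤ (64 * n) * (3 * n) := Nat.mul_le_mul (by omega) (by omega)
  nlinarith

/-- The marked set has no translation symmetry. -/
theorem no_period {a b c : ℤ} (h : ∀ x y z : ℤ, mark (x + a) (y + b) (z + c) ↔ mark x y z) :
    a = 0 ∧ b = 0 ∧ c = 0 := by
  have hc : c = 0 := by
    have h1 : mark (0 + a) (0 + b) (1 + c) := (h 0 0 1).mpr ⟨0, by norm_num, by simp⟩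
    have h2 : mark (-a) (-b) (1 - c) := (h (-a) (-b) (1 - c)).mp ⟨0, by norm_num, by simp⟩
    obtain ⟨k, hk, -⟩ := h1
    obtain ⟨l, hl, -⟩ := h2
    have h3 : (1 : ℤ) ≤ 4 ^ k := one_le_pow₀ (by norm_num)
    have h4 : (1 : ℤ) ≤ 4 ^ l := one_le_pow₀ (by norm_num)
    linarith
  subst hc
  have hk : ∀ k : ℕ, (2 : ℤ) ^ k ∣ (if Even k then a else b) := by
    intro k
    have h1 : mark (0 + a) (0 + b) (4 ^ k + 0) := (h 0 0 (4 ^ k)).mpr ⟨k, rfl, by simp⟩
    obtain ⟨l, hl, hd⟩ := h1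
    have : k = l := by
      rw [add_zero] at hl
      exact (pow_right_inj₀ (by norm_num) (by norm_num)).mp hl
    subst this
    simpa using hd
  have hbig : ∀ (s : ℤ) (k : ℕ), s.natAbs ≤ k → (2 : ℤ) ^ k ∣ s → s = 0 := by
    intro s k hs hd
    apply eq_zero_of_dvd_of_lt hd
    have h1 : k < 2 ^ k := Nat.lt_two_pow_self
    have h2 : |s| = (s.natAbs : ℤ) := (Int.natCast_natAbs s).symm
    rw [h2]
    exact_mod_cast lt_of_le_of_lt hs h1
  refine ⟨hbig a (2 * a.natAbs) (by omega) ?_, hbig b (2 * b.natAbs + 1) (by omega) ?_, rfl⟩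
  · have := hk (2 * a.natAbs)
    simpa using this
  · have := hk (2 * b.natAbs + 1)
    simpa using this

/-- Heights congruent to two modulo four are unmarked. -/
lemma not_mark (x y m : ℤ) : ¬ mark x y (4 * m + 2) := by
  rintro ⟨k, hk, -⟩
  rcases k with _ | k
  · simp at hk; omega
  · rw [pow_succ] at hk; omega

end Pool.Agent.P.MP_90314f_co
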