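import Pool.Agent.P.MP_90314f_co.Fac

/-! Configurations of low complexity on the integer lattice have period groups of corank at most
one. -/

set_option autoImplicit false

namespace Pool.Agent.P.MP_90314f_co

section

variable {G : Type} [AddCommGroup G] [Module.Finite ℤ G]

theorem finite_sub (S : AddSubgroup G) : Module.Finite ℤ S :=
  Module.Finite.of_injective S.subtype.toIntLinearMap Subtype.val_injective

theorem finite_quot (S P : AddSubgroup G) (h : ∀ s ∈ S, ∃ k : ℕ, 0 < k ∧ k • s ∈ P) :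
    Finite (S ⧸ P.addSubgroupOf S) := by
  have := finite_sub S
  have : AddGroup.FG S := Module.Finite.iff_addGroup_fg.1 this
  refine AddCommGroup.finite_of_fg_isAddTorsion _ fun τ => ?_
  obtain ⟨s, rfl⟩ := QuotientAddGroup.mk_surjective τ
  obtain ⟨k, hk, h1⟩ := h s s.2
  refine isOfFinAddOrder_iff_nsmul_eq_zero.2 ⟨k, hk, ?_⟩
  rw [← QuotientAddGroup.mk_nsmul, QuotientAddGroup.eq_zero_iff]
  exact h1

theorem exists_reps_mod (S P : AddSubgroup G) (h : ∀ s ∈ S, ∃ k : ℕ, 0 < k ∧ k • s ∈ P) :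
    ∃ K : Finset G, ∀ s ∈ S, ∃ k ∈ K, s - k ∈ P := by
  classical
  have := finite_quot S P h
  have := Fintype.ofFinite (S ⧸ P.addSubgroupOf S)
  refine ⟨Finset.univ.image fun τ : S ⧸ P.addSubgroupOf S => (τ.out : G), fun s hs =>
    ⟨_, Finset.mem_image_of_mem _ (Finset.mem_univ (QuotientAddGroup.mk ⟨s, hs⟩)), ?_⟩⟩
  have h1 := (QuotientAddGroup.eq_iff_sub_mem (N := P.addSubgroupOf S)).1
    (QuotientAddGroup.out_eq' (QuotientAddGroup.mk (⟨s, hs⟩ : S))).symm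
  exact h1

end

variable {d : ℕ}

/-- The embedding of the integer lattice in the rational vector space. -/
def cq : (Fin d → ℤ) →+ (Fin d → ℚ) := (Int.castAddHom ℚ).compLeft (Fin d)

theorem cq_apply (x : Fin d → ℤ) (i : Fin d) : cq x i = x i := rfl

theorem cq_injective : Function.Injective (cq (d := d)) := fun x y h => by
  ext i
  exact Int.cast_injective (α := ℚ) (congrFun h i)

/-- The rational span. -/
def VQ (P : AddSubgroup (Fin d → ℤ)) : Submodule ℚ (Fin d → ℚ) := Submodule.span ℚ (cq '' P)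

/-- The saturation. -/
def sat (P : AddSubgroup (Fin d → ℤ)) : AddSubgroup (Fin d → ℤ) := (VQ P).toAddSubgroup.comap cq

/-- The rank. -/
noncomputable def rk (P : AddSubgroup (Fin d → ℤ)) : ℕ := Module.finrank ℚ (VQ P)

theorem mem_sat' {P : AddSubgroup (Fin d → ℤ)} {x : Fin d → ℤ} : x ∈ sat P ↔ cq x ∈ VQ P :=
  Iff.rfl

theorem le_sat (P : AddSubgroup (Fin d → ℤ)) : P ≤ sat P :=
  fun x hx => Submodule.subset_span ⟨x, hx, rfl⟩

theorem sat_sat {P : AddSubgroup (Fin d → ℤ)} (k : ℕ) (hk : 0 < k) (x : Fin d → ℤ)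
    (h : k • x ∈ sat P) : x ∈ sat P := by
  rw [mem_sat', map_nsmul, ← Nat.cast_smul_eq_nsmul ℚ] at h
  exact (Submodule.smul_mem_iff _ (by exact_mod_cast hk.ne')).1 h

theorem mem_sat {P : AddSubgroup (Fin d → ℤ)} {x : Fin d → ℤ} (hx : x ∈ sat P) :
    ∃ k : ℕ, 0 < k ∧ k • x ∈ P := by
  have key : ∀ v ∈ VQ P, ∃ k : ℕ, 0 < k ∧ ∃ p ∈ P, k • v = cq p := by
    intro v hv
    induction hv using Submodule.span_induction with
    | mem v hv =>
      obtain ⟨p, hp, rfl⟩ := hv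
      exact ⟨1, one_pos, p, hp, one_smul _ _⟩
    | zero => exact ⟨1, one_pos, 0, P.zero_mem, by simp⟩
    | add v w _ _ hv hw =>
      obtain ⟨k, hk, p, hp, h1⟩ := hv
      obtain ⟨l, hl, q, hq, h2⟩ := hw
      refine ⟨k * l, Nat.mul_pos hk hl, l • p + k • q,
        P.add_mem (P.nsmul_mem hp l) (P.nsmul_mem hq k), ?_⟩
      rw [map_add, map_nsmul, map_nsmul, ← h1, ← h2, smul_add, mul_smul k l w, mul_comm, mul_smul]
    | smul a v _ hv =>
      obtain ⟨k, hk, p, hp, h1⟩ := hv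
      refine ⟨k * a.den, Nat.mul_pos hk a.den_pos, a.num • p, P.zsmul_mem hp _, ?_⟩
      rw [map_zsmul, ← h1, mul_smul, smul_comm a.num, ← Nat.cast_smul_eq_nsmul ℚ a.den, smul_smul,
        ← Int.cast_smul_eq_zsmul ℚ, Rat.den_mul_eq_num]
  obtain ⟨k, hk, p, hp, h⟩ := key _ hx
  rw [← map_nsmul] at h
  exact ⟨k, hk, cq_injective h ▸ hp⟩

theorem VQ_mono {P P' : AddSubgroup (Fin d → ℤ)} (h : P ≤ sat P') : VQ P ≤ VQ P' :=
  Submodule.span_le.2 (by rintro _ ⟨x, hx, rfl⟩; exact h hx)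

theorem rk_le (P : AddSubgroup (Fin d → ℤ)) : rk P ≤ d := by
  simpa [rk] using (VQ P).finrank_le

theorem rk_lt {P P' : AddSubgroup (Fin d → ℤ)} (h : P ≤ sat P') {x : Fin d → ℤ} (hx : x ∈ sat P')
    (hx' : x ∉ sat P) : rk P < rk P' :=
  Submodule.finrank_lt_finrank_of_lt (lt_of_le_of_ne (VQ_mono h) fun e => hx' (by
    rw [mem_sat', e]; exact hx))

theorem mem_sat_of_rk {P : AddSubgroup (Fin d → ℤ)} (h : d ≤ rk P) (x : Fin d → ℤ) :
    x ∈ sat P := by
  by_contra hx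
  have := rk_lt (P' := ⊤) (le_top.trans (le_sat ⊤)) (le_sat ⊤ trivial) hx
  have := rk_le (⊤ : AddSubgroup (Fin d → ℤ))
  omega

theorem exists_notMem_sat {P : AddSubgroup (Fin d → ℤ)} (h : rk P < d) : ∃ x, x ∉ sat P := by
  by_contra hx
  push Not at hx
  have h1 : VQ P = ⊤ := by
    rw [eq_top_iff, ← (Pi.basisFun ℚ (Fin d)).span_eq, Submodule.span_le]
    rintro _ ⟨i, rfl⟩
    have : cq (Pi.single i 1) = Pi.basisFun ℚ (Fin d) i := by
      ext j
      simp [cq_apply, Pi.single_apply]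
    rw [← this]
    exact hx _
  rw [rk, h1] at h
  simp at h

theorem par {P : AddSubgroup (Fin d → ℤ)} (h : d ≤ rk P + 1) {x : Fin d → ℤ} (hx : x ∉ sat P)
    (y : Fin d → ℤ) : ∃ (k : ℕ) (b : ℤ), 0 < k ∧ k • y - b • x ∈ P := by
  have h1 := rk_lt (P' := P ⊔ AddSubgroup.zmultiples x) (le_sup_left.trans (le_sat _))
    (le_sat _ (AddSubgroup.mem_sup_right (AddSubgroup.mem_zmultiples x))) hx
  obtain ⟨k, hk, h2⟩ := mem_sat (mem_sat_of_rk (P := P ⊔ AddSubgroup.zmultiples x) (by omega) y)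
  obtain ⟨p, hp, _, ⟨b, rfl⟩, h3⟩ := AddSubgroup.mem_sup.1 h2
  exact ⟨k, b, hk, by rw [← h3]; simpa using hp⟩

/-- Low complexity: modulo every subgroup of corank at least two there are windows with fewer
patterns than cells. -/
def Low {V : Type} (c : (Fin d → ℤ) → V) : Prop :=
  ∀ S : AddSubgroup (Fin d → ℤ), rk S + 2 ≤ d → ∀ K : Finset (Fin d → ℤ),
    ∃ (J : Type) (_ : Fintype J) (u : J → Fin d → ℤ) (ι : Type) (F : (Fin d → ℤ) → ι)
      (Z : Finset ι), (∀ i j, u i - u j ∈ S → i = j) ∧ (∀ z, F z ∈ Z) ∧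
      Z.card < Fintype.card J ∧ ∀ z z', F z = F z' → ∃ s ∈ S, ∀ j j', ∀ k ∈ K,
        c (z + (u j - u j') + k) = c (z' + s + (u j - u j') + k)

theorem Low.factor {V V' : Type} {c : (Fin d → ℤ) → V} {c' : (Fin d → ℤ) → V'} (h : Low c)
    (hf : Factor c c') : Low c' := by
  classical
  obtain ⟨K', hK'⟩ := hf
  intro S hS K
  obtain ⟨J, _, u, ι, F, Z, h1, h2, h3, h4⟩ := h S hS (Finset.image₂ (· + ·) K K')
  refine ⟨J, inferInstance, u, ι, F, Z, h1, h2, h3, fun z z' hz => ?_⟩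
  obtain ⟨s, hs, h5⟩ := h4 z z' hz
  refine ⟨s, hs, fun j j' k hk => hK' _ _ fun k' hk' => ?_⟩
  rw [add_assoc _ k, add_assoc _ k]
  exact h5 j j' _ (Finset.mem_image₂_of_mem hk hk')

theorem per_shift {G V : Type} [AddCommGroup G] {c : G → V} {s k : G} (h : s - k ∈ Per c) (x : G) :
    c (x + s) = c (x + k) := by
  rw [← h (x + k)]
  congr 1
  abel

/-- Two factors with different hyperplanes of periods are not of low complexity together. -/
theorem not_low {c₁ c₂ : (Fin d → ℤ) → ℂ} (f₁ : (Set.range c₁).Finite) (f₂ : (Set.range c₂).Finite)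
    (r₁ : d ≤ rk (Per c₁) + 1) (r₂ : d ≤ rk (Per c₂) + 1) {w₁ w₂ : Fin d → ℤ}
    (p₁ : w₁ ∈ Per c₁) (n₁ : w₂ ∉ sat (Per c₁)) (n₂ : w₁ ∉ sat (Per c₂)) :
    ¬ Low fun x => (c₁ x, c₂ x) := by
  classical
  intro hlow
  set H₁ := sat (Per c₁) with hH₁
  set H₂ := sat (Per c₂) with hH₂
  have hrk : rk (H₁ ⊓ H₂) + 2 ≤ d := by
    have h1 : rk (H₁ ⊓ H₂) < rk (Per c₁) := rk_lt inf_le_left (le_sat _ p₁) fun h =>
      n₂ (VQ_mono (P' := Per c₂) inf_le_right h)
    have h2 : ¬ d ≤ rk (Per c₁) := fun h => n₁ (mem_sat_of_rk h _)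
    omega
  obtain ⟨Ka, hKa⟩ := exists_reps_mod H₁ (Per c₁) fun s hs => mem_sat hs
  obtain ⟨Kb, hKb⟩ := exists_reps_mod H₂ (Per c₂) fun s hs => mem_sat hs
  obtain ⟨R, hR⟩ := exists_reps_mod ⊤ (H₁ ⊔ Per c₂) fun s _ => by
    obtain ⟨k, b, hk, h⟩ := par r₂ n₂ s
    refine ⟨k, hk, ?_⟩
    have := (H₁ ⊔ Per c₂).add_mem (AddSubgroup.mem_sup_right h)
      (AddSubgroup.mem_sup_left (H₁.zsmul_mem (le_sat _ p₁) b))
    rwa [sub_add_cancel] at this
  obtain ⟨J, _, u, ι, F, Z, hu, hZ, hcard, hF⟩ :=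
    hlow _ hrk (Ka ∪ Finset.image₂ (· + ·) R Kb)
  have hF1 : ∀ z z', F z = F z' → ∃ s ∈ H₁ ⊓ H₂,
      (∀ j j', ∀ h ∈ H₁, c₁ (z + (u j - u j') + h) = c₁ (z' + s + (u j - u j') + h)) ∧
      ∀ j j', ∀ t ∈ R, ∀ h ∈ H₂,
        c₂ (z + (u j - u j') + t + h) = c₂ (z' + s + (u j - u j') + t + h) := fun z z' hz => by
    obtain ⟨s, hs, h1⟩ := hF z z' hz
    refine ⟨s, hs, fun j j' h hh => ?_, fun j j' t ht h hh => ?_⟩
    · obtain ⟨k, hk, h2⟩ := hKa h hh
      rw [per_shift h2, per_shift h2]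
      exact congrArg Prod.fst (h1 j j' k (Finset.mem_union_left _ hk))
    · obtain ⟨k, hk, h2⟩ := hKb h hh
      rw [per_shift h2, per_shift h2, add_assoc _ t, add_assoc _ t]
      exact congrArg Prod.snd
        (h1 j j' _ (Finset.mem_union_right _ (Finset.mem_image₂_of_mem ht hk)))
  let α : (Fin d → ℤ) → Set (J → J → H₁ → ℂ) := fun z =>
    Set.range fun h₀ : H₁ => fun j j' h => c₁ (z + h₀ + (u j - u j') + h)
  have hαH : ∀ z, ∀ h ∈ H₁, α (z + h) = α z := fun z h hh => by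
    ext f
    constructor
    · rintro ⟨h₀, rfl⟩
      exact ⟨⟨h, hh⟩ + h₀, by simp only [AddSubgroup.coe_add, add_assoc]⟩
    · rintro ⟨h₀, rfl⟩
      exact ⟨h₀ - ⟨h, hh⟩, by simp only [AddSubgroup.coe_sub, add_assoc, add_sub_cancel]⟩
  have hαF : ∀ z z', F z = F z' → α z = α z' := fun z z' hz => by
    obtain ⟨s, hs, h1, -⟩ := hF1 z z' hz
    rw [← hαH z' s hs.1]
    simp only [α]
    congr 1
    ext h₀ j j' h
    have := h1 j j' (h₀ + h) (H₁.add_mem h₀.2 h.2)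
    convert this using 2 <;> abel
  let g : ι → Set (J → J → H₁ → ℂ) := fun i => α (Function.invFun F i)
  have hg : ∀ z, g (F z) = α z := fun z => hαF _ _ (Function.invFun_eq ⟨z, rfl⟩)
  obtain ⟨j₀⟩ : Nonempty J := Fintype.card_pos_iff.1 (by omega)
  let m : J → (Fin d → ℤ) ⧸ H₁ := fun j => QuotientAddGroup.mk (u j)
  obtain ⟨J₁, -, hinj, himg⟩ := Finset.exists_subset_injOn_image_eq_of_surjOn (f := m) Set.univ
    (Finset.univ.image m) (by simp [Set.SurjOn])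
  have hA : (Finset.univ.image m).card ≤ (Z.image g).card := by
    rw [← himg, Finset.card_image_of_injOn hinj, ← Fintype.card_coe]
    refine lemA' H₁ sat_sat c₁ f₁ (le_sat _) (finite_quot _ _ fun s hs => mem_sat hs) ⟨w₂, n₁⟩
      (fun x y hx => par r₁ hx y) (fun j : J₁ => u j - u j₀) (fun i j h => ?_) α _
      (fun z => hg z ▸ Finset.mem_image_of_mem g (hZ z)) fun z z' hz => ?_
    · rw [sub_sub_sub_cancel_right] at h
      exact Subtype.ext (hinj i.2 j.2 (QuotientAddGroup.eq_iff_sub_mem.2 h))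
    · obtain ⟨h₀, h1⟩ : (fun j j' (h : H₁) => c₁ (z + (0 : H₁) + (u j - u j') + h)) ∈ α z' :=
        hz ▸ ⟨0, rfl⟩
      refine ⟨h₀, h₀.2, fun j h hh => ?_⟩
      simpa using (congrFun (congrFun (congrFun h1 j) j₀) ⟨h, hh⟩).symm
  obtain ⟨a, ha, hmin⟩ := (Z.image g).exists_min_image
    (fun a => (Z.filter fun i => g i = a).card) ⟨_, Finset.mem_image_of_mem g (hZ 0)⟩
  obtain ⟨i₀, -, rfl⟩ := Finset.mem_image.1 ha
  set z₀ := Function.invFun F i₀ with hz₀
  have hB : ∀ b ∈ Finset.univ.image m, (Finset.univ.filter fun j => m j = b).card ≤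
      (Z.filter fun i => g i = g i₀).card := by
    intro b hb
    obtain ⟨j₁, -, rfl⟩ := Finset.mem_image.1 hb
    have := finite_sub H₁
    let c' : H₁ → R → ℂ := fun h t => c₂ (z₀ + h + t)
    have hP : ∀ h : H₁, h ∈ Per c' ↔ (h : Fin d → ℤ) ∈ Per c₂ := fun h => by
      constructor
      · intro hh x
        obtain ⟨t, ht, h1⟩ := hR (x - z₀) trivial
        obtain ⟨h', hh', l, hl, h2⟩ := AddSubgroup.mem_sup.1 h1
        have h3 : c₂ (z₀ + (h' + h) + t) = c₂ (z₀ + h' + t) := congrFun (hh ⟨h', hh'⟩) ⟨t, ht⟩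
        have h4 : x = z₀ + h' + t + l := by
          rw [add_right_comm, add_assoc z₀, h2]
          abel
        rw [h4, hl, add_right_comm _ l, hl, ← h3]
        congr 1
        abel
      · intro hh x
        ext t
        simp only [c', AddSubgroup.coe_add]
        rw [← hh (z₀ + x + t)]
        congr 1
        abel
    rw [← Fintype.card_coe]
    refine lemA' (H₂.addSubgroupOf H₁) (fun k hk x hx => sat_sat k hk _ hx) c'
      ((Set.Finite.pi' fun _ : R => f₂).subset ?_) (fun h hh => le_sat _ ((hP h).1 hh))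
      (finite_quot _ _ fun s hs => ?_) ⟨⟨w₁, le_sat _ p₁⟩, n₂⟩ (fun x y hx => ?_)
      (fun j : Finset.univ.filter fun j => m j = m j₁ => ⟨u j - u j₁,
        QuotientAddGroup.eq_iff_sub_mem.1 (Finset.mem_filter.1 j.2).2⟩)
      (fun i j h => ?_) (fun h => F (z₀ + h)) _ (fun h => ?_) fun h h' hz => ?_
    · rintro _ ⟨h, rfl⟩ t
      exact ⟨_, rfl⟩
    · obtain ⟨k, hk, h1⟩ := mem_sat hs
      exact ⟨k, hk, (hP _).2 h1⟩
    · obtain ⟨k, b, hk, h1⟩ := par r₂ hx y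
      exact ⟨k, b, hk, (hP _).2 h1⟩
    · have h1 : u i - u j₁ - (u j - u j₁) ∈ H₂ := h
      rw [sub_sub_sub_cancel_right] at h1
      exact Subtype.ext (hu _ _ ⟨QuotientAddGroup.eq_iff_sub_mem.1
        ((Finset.mem_filter.1 i.2).2.trans (Finset.mem_filter.1 j.2).2.symm), h1⟩)
    · exact Finset.mem_filter.2 ⟨hZ _, by rw [hg, hαH _ _ h.2]⟩
    · obtain ⟨s, hs, -, h1⟩ := hF1 _ _ hz
      refine ⟨⟨s, hs.1⟩, hs.2, fun j s' hs' => ?_⟩
      ext t
      simp only [c', AddSubgroup.coe_add]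
      convert h1 j j₁ t t.2 s' hs' using 2 <;> abel
  have e1 := Finset.card_le_mul_card_image Finset.univ _ hB
  have e2 := Finset.mul_card_image_le_card Z _ hmin
  have e3 := Nat.mul_le_mul_left (Z.filter fun i => g i = g i₀).card hA
  rw [Finset.card_univ] at e1
  omega

theorem core_int (n : ℕ) : ∀ c : (Fin d → ℤ) → ℂ, IntFin c → Low c → d ≤ rk (Per c) + n →
    d ≤ rk (Per c) + 1 := by
  induction n with
  | zero => intro c _ _ h; omega
  | succ n ih =>
    intro c hc hlow hn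
    by_contra hlt
    have hrk : rk (sat (Per c)) ≤ rk (Per c) := Submodule.finrank_mono (VQ_mono le_rfl)
    obtain ⟨K, hK⟩ := exists_reps_mod (sat (Per c)) (Per c) fun s hs => mem_sat hs
    obtain ⟨J, _, u, ι, F, Z, hu, hZ, hcard, hF⟩ := hlow (sat (Per c)) (by omega) K
    obtain ⟨j₀⟩ : Nonempty J := Fintype.card_pos_iff.1 (by omega)
    obtain ⟨w₁, w₂, c₁, c₂, h₁, h₂, i₁, i₂, f₁, f₂, p₁, p₂, n₁, n₂⟩ := lemB (sat (Per c)) sat_sat
      c hc (le_sat _) (exists_notMem_sat (by omega))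
      (lemA _ sat_sat c hc (finite_quot _ _ fun s hs => mem_sat hs) (fun j => u j - u j₀)
        (fun i j h => hu i j (by rwa [sub_sub_sub_cancel_right] at h)) F Z hZ hcard
        fun z z' hz => by
          obtain ⟨s, hs, h1⟩ := hF z z' hz
          refine ⟨s, hs, fun j s' hs' => ?_⟩
          obtain ⟨k, hk, h2⟩ := hK s' hs'
          rw [per_shift h2, per_shift h2]
          exact h1 j j₀ k hk)
    have l₁ := rk_lt (f₁.per_le.trans (le_sat _)) (le_sat _ p₁) h₁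
    have l₂ := rk_lt (f₂.per_le.trans (le_sat _)) (le_sat _ p₂) h₂
    exact not_low i₁.1 i₂.1 (ih c₁ i₁ (hlow.factor f₁) (by omega))
      (ih c₂ i₂ (hlow.factor f₂) (by omega)) p₁
      (fun h => let ⟨k, hk, h⟩ := mem_sat h; n₁ k hk h)
      (fun h => let ⟨k, hk, h⟩ := mem_sat h; n₂ k hk h) (hlow.factor (f₁.prod f₂))

theorem core {V : Type} (c : (Fin d → ℤ) → V) (hc : (Set.range c).Finite) (hlow : Low c) :
    d ≤ rk (Per c) + 1 := by
  obtain ⟨η, hη, hcode⟩ := exists_code c hc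
  have hP : Per η = Per c := by
    ext w
    simp only [mem_Per, hcode]
  rw [← hP]
  exact core_int d η hη (hlow.factor ⟨{0}, fun x y h => (hcode x y).2
    (by simpa using h 0 (Finset.mem_singleton_self 0))⟩) (Nat.le_add_left _ _)

end Pool.Agent.P.MP_90314f_co
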