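import Mathlib

set_option autoImplicit false

namespace Pool.Agent.P.MP_90314f_co

/-- `X` is an `(r, R)`-Delone set: distinct points are at distance at least `2 r`, and every point
of the space is within distance `R` of `X`. -/
def IsDelone {d : ℕ} (r R : ℝ) (X : Set (EuclideanSpace ℝ (Fin d))) : Prop :=
  (∀ x ∈ X, ∀ y ∈ X, x ≠ y → 2 * r ≤ dist x y) ∧
    ∀ z : EuclideanSpace ℝ (Fin d), ∃ x ∈ X, dist z x ≤ R

/-- The set of `t`-patches of `X`, each translated so that its centre is the origin. -/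
def patches {d : ℕ} (X : Set (EuclideanSpace ℝ (Fin d))) (t : ℝ) :
    Set (Set (EuclideanSpace ℝ (Fin d))) :=
  {P | ∃ x ∈ X, P = (fun y => y - x) '' (X ∩ Metric.closedBall x t)}

/-- `X` has `j` linearly independent periods. -/
def HasPeriods {d : ℕ} (X : Set (EuclideanSpace ℝ (Fin d))) (j : ℕ) : Prop :=
  ∃ v : Fin j → EuclideanSpace ℝ (Fin d),
    LinearIndependent ℝ v ∧ ∀ i : Fin j, ∀ x : EuclideanSpace ℝ (Fin d), x + v i ∈ X ↔ x ∈ X

/-- The period conjecture for the pair `(d, j)`. -/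
def PeriodConj (d j : ℕ) : Prop :=
  ∀ r R : ℝ, 0 < r → 0 < R → ∃ c : ℝ, 0 < c ∧ ∀ X : Set (EuclideanSpace ℝ (Fin d)),
    IsDelone r R X →
    (∃ t₀ : ℝ, ∀ t : ℝ, t₀ < t →
      (patches X t).Finite ∧ ((patches X t).ncard : ℝ) < c * t ^ (d - j + 1)) →
    HasPeriods X j

end Pool.Agent.P.MP_90314f_co
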