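import Pool.Agent.P.MP_90314f_co.Ann

/-! Local factors, minimal annihilators, and the corank one case. -/

set_option autoImplicit false

namespace Pool.Agent.P.MP_90314f_co

open AddMonoidAlgebra

variable {G : Type} [AddCommGroup G]

/-- `c'` is obtained from `c` by a local rule. -/
def Factor {V V' : Type} (c : G → V) (c' : G → V') : Prop :=
  ∃ K : Finset G, ∀ x y, (∀ k ∈ K, c (x + k) = c (y + k)) → c' x = c' y

theorem Factor.refl {V : Type} (c : G → V) : Factor c c :=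
  ⟨{0}, fun x y h => by simpa using h 0 (Finset.mem_singleton_self 0)⟩

theorem Factor.trans {V V' V'' : Type} {c : G → V} {c' : G → V'} {c'' : G → V''}
    (h : Factor c c') (h' : Factor c' c'') : Factor c c'' := by
  classical
  obtain ⟨K, hK⟩ := h
  obtain ⟨K', hK'⟩ := h'
  refine ⟨Finset.image₂ (· + ·) K' K, fun x y h => hK' x y fun k' hk' => hK _ _ fun k hk => ?_⟩
  rw [add_assoc, add_assoc]
  exact h _ (Finset.mem_image₂_of_mem hk' hk)

theorem Factor.prod {V V' V'' : Type} {c : G → V} {c' : G → V'} {c'' : G → V''}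
    (h : Factor c c') (h' : Factor c c'') : Factor c fun x => (c' x, c'' x) := by
  classical
  obtain ⟨K, hK⟩ := h
  obtain ⟨K', hK'⟩ := h'
  exact ⟨K ∪ K', fun x y h => Prod.ext (hK x y fun k hk => h k (Finset.mem_union_left _ hk))
    (hK' x y fun k hk => h k (Finset.mem_union_right _ hk))⟩

theorem Factor.per_le {V V' : Type} {c : G → V} {c' : G → V'} (h : Factor c c') :
    Per c ≤ Per c' := by
  obtain ⟨K, hK⟩ := h
  exact fun w hw x => hK _ _ fun k _ => by rw [add_right_comm, hw]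

theorem factor_diff (w : G) (c : G → ℂ) : Factor c (act ℂ (single w 1 - 1) c) := by
  classical
  refine ⟨{0, w}, fun x y h => ?_⟩
  have h0 := h 0 (by simp)
  rw [add_zero, add_zero] at h0
  rw [act_diff, act_diff, h0, h w (by simp)]

theorem IntFin.diff {c : G → ℂ} (hc : IntFin c) (w : G) : IntFin (act ℂ (single w 1 - 1) c) := by
  refine ⟨(hc.1.image2 (· - ·) hc.1).subset ?_, fun x => ?_⟩
  · rintro _ ⟨x, rfl⟩
    exact ⟨_, ⟨x + w, rfl⟩, _, ⟨x, rfl⟩, (act_diff w c x).symm⟩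
  · obtain ⟨m, hm⟩ := hc.2 (x + w)
    obtain ⟨n, hn⟩ := hc.2 x
    exact ⟨m - n, by rw [act_diff, hm, hn, Int.cast_sub]⟩

theorem factor_dif (ws : Multiset G) (c : G → ℂ) : Factor c (act ℂ (dif ws) c) := by
  induction ws using Multiset.induction_on with
  | empty => rw [dif_zero, map_one]; exact Factor.refl c
  | cons w ws ih => rw [dif_cons, act_mul]; exact ih.trans (factor_diff _ _)

theorem IntFin.dif {c : G → ℂ} (hc : IntFin c) (ws : Multiset G) : IntFin (act ℂ (dif ws) c) := by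
  induction ws using Multiset.induction_on with
  | empty => rw [dif_zero, map_one]; exact hc
  | cons w ws ih => rw [dif_cons, act_mul]; exact ih.diff w

/-- A bounded function whose difference is periodic is periodic. -/
theorem per_of_sq {c : G → ℂ} (hc : (Set.range c).Finite) {w : G}
    (h : w ∈ Per (act ℂ (single w 1 - 1) c)) : w ∈ Per c := by
  intro x
  have h1 : ∀ n : ℕ, c (x + n • w) = c x + n * (c (x + w) - c x) := by
    intro n
    induction n with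
    | zero => simp
    | succ n ih =>
      have h2 := (Per _).nsmul_mem h n x
      rw [act_diff, act_diff, ih] at h2
      rw [succ_nsmul, ← add_assoc]
      push_cast
      linear_combination h2
  by_contra hne
  refine Set.infinite_of_injective_forall_mem (f := fun n : ℕ => c (x + n • w))
    (fun m n hmn => ?_) (fun n => Set.mem_range_self _) hc
  simp only [h1, add_right_inj] at hmn
  exact_mod_cast mul_right_cancel₀ (sub_ne_zero.2 hne) hmn

theorem lemB (S : AddSubgroup G) (hsat : ∀ k : ℕ, 0 < k → ∀ x, k • x ∈ S → x ∈ S)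
    (c : G → ℂ) (hc : IntFin c) (hper : Per c ≤ S) (hne : ∃ x, x ∉ S)
    (hex : ∃ ws : Multiset G, (∀ w ∈ ws, w ∉ S) ∧ dif ws ∈ Ann c) :
    ∃ (w₁ w₂ : G) (c₁ c₂ : G → ℂ), w₁ ∉ S ∧ w₂ ∉ S ∧ IntFin c₁ ∧ IntFin c₂ ∧ Factor c c₁ ∧
      Factor c c₂ ∧ w₁ ∈ Per c₁ ∧ w₂ ∈ Per c₂ ∧ (∀ k : ℕ, 0 < k → k • w₂ ∉ Per c₁) ∧
      ∀ k : ℕ, 0 < k → k • w₁ ∉ Per c₂ := by
  classical
  have hex' : ∃ n, ∃ ws : Multiset G, ws.card = n ∧ (∀ w ∈ ws, w ∉ S) ∧ dif ws ∈ Ann c :=
    let ⟨ws, h⟩ := hex; ⟨_, ws, rfl, h⟩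
  obtain ⟨ws, hcard, hws, hann⟩ := Nat.find_spec hex'
  have hmin : ∀ ws' : Multiset G, ws'.card < ws.card → (∀ w ∈ ws', w ∉ S) → dif ws' ∉ Ann c :=
    fun ws' h h1 h2 => Nat.find_min hex' (hcard ▸ h) ⟨ws', rfl, h1, h2⟩
  have key : ∀ w₁ w₂ rest, ws = w₁ ::ₘ w₂ ::ₘ rest → w₁ ∈ Per (act ℂ (dif (w₂ ::ₘ rest)) c) ∧
      ∀ k : ℕ, 0 < k → k • w₂ ∉ Per (act ℂ (dif (w₂ ::ₘ rest)) c) := by
    rintro w₁ w₂ rest rfl
    refine ⟨by rwa [← diff_mem_Ann, mem_Ann_act, ← dif_cons], fun k hk h => ?_⟩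
    refine hmin ((k • w₂) ::ₘ rest) (by simp) (fun w hw => ?_) ?_
    · rcases Multiset.mem_cons.1 hw with rfl | hw
      · exact fun h1 => hws w₂ (by simp) (hsat k hk _ h1)
      · exact hws w (by simp [hw])
    · rw [dif_cons, ← mem_Ann_act, diff_mem_Ann]
      refine per_of_sq (hc.dif rest).1 ?_
      rw [← diff_mem_Ann, mem_Ann_act, dif_cons] at h
      rw [← diff_mem_Ann, mem_Ann_act, mem_Ann_act]
      obtain ⟨g, hg⟩ := sub_one_dvd_pow_sub_one (single w₂ (1 : ℂ)) k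
      rw [single_pow, one_pow] at hg
      have h2 := Ideal.mul_mem_left _ g h
      convert h2 using 1
      nth_rewrite 2 [hg]
      ring
  obtain rfl | ⟨w₁, hw₁⟩ := ws.empty_or_exists_mem
  · obtain ⟨x, hx⟩ := hne
    rw [dif_zero, mem_Ann, map_one] at hann
    have h0 : c = 0 := hann
    exact absurd (hper fun y => by rw [h0]; rfl) hx
  obtain ⟨ws', rfl⟩ := Multiset.exists_cons_of_mem hw₁
  obtain rfl | ⟨w₂, hw₂⟩ := ws'.empty_or_exists_mem
  · rw [dif_cons, dif_zero, mul_one, diff_mem_Ann] at hann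
    exact absurd (hper hann) (hws w₁ hw₁)
  obtain ⟨rest, rfl⟩ := Multiset.exists_cons_of_mem hw₂
  have k1 := key w₁ w₂ rest rfl
  have k2 := key w₂ w₁ rest (Multiset.cons_swap _ _ _)
  exact ⟨w₁, w₂, _, _, hws w₁ hw₁, hws w₂ (by simp), hc.dif _, hc.dif _, factor_dif _ c,
    factor_dif _ c, k1.1, k2.1, k1.2, k2.2⟩

omit [AddCommGroup G] in
theorem exists_code {V : Type} (c : G → V) (hc : (Set.range c).Finite) :
    ∃ η : G → ℂ, IntFin η ∧ ∀ x y, η x = η y ↔ c x = c y := by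
  have := hc.to_subtype
  obtain ⟨n, ⟨e⟩⟩ := Finite.exists_equiv_fin (Set.range c)
  refine ⟨fun x => ((e ⟨c x, x, rfl⟩ : ℕ) : ℂ), ⟨?_, fun x => ⟨(e ⟨c x, x, rfl⟩ : ℕ), by simp⟩⟩,
    fun x y => ?_⟩
  · refine (Set.finite_range fun i : Fin n => ((i : ℕ) : ℂ)).subset ?_
    rintro _ ⟨x, rfl⟩
    exact ⟨_, rfl⟩
  · simp [Fin.val_inj]

/-- The corank one case: at least as many patterns as cells. -/
theorem lemA' {V : Type} (S : AddSubgroup G) (hsat : ∀ k : ℕ, 0 < k → ∀ x, k • x ∈ S → x ∈ S)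
    (c : G → V) (hc : (Set.range c).Finite) (hper : Per c ≤ S)
    (hfin : Finite (S ⧸ (Per c).addSubgroupOf S)) (hne : ∃ x, x ∉ S)
    (hpar : ∀ x y, x ∉ S → ∃ (k : ℕ) (b : ℤ), 0 < k ∧ k • y - b • x ∈ Per c)
    {J ι : Type} [Fintype J] (u : J → G) (hu : ∀ i j, u i - u j ∈ S → i = j) (F : G → ι)
    (Z : Finset ι) (hZ : ∀ z, F z ∈ Z)
    (hF : ∀ z z', F z = F z' → ∃ s ∈ S, ∀ j, ∀ s' ∈ S, c (z + u j + s') = c (z' + s + u j + s')) :
    Fintype.card J ≤ Z.card := by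
  by_contra hlt
  obtain ⟨η, hη, hcode⟩ := exists_code c hc
  have hP : Per η = Per c := by
    ext w
    simp only [mem_Per, hcode]
  obtain ⟨w₁, w₂, c₁, c₂, h1, -, -, -, f1, -, p1, -, n1, -⟩ := lemB S hsat η hη (hP ▸ hper) hne
    (lemA S hsat η hη (hP ▸ hfin) u hu F Z hZ (not_le.1 hlt) (by simpa only [hcode] using hF))
  obtain ⟨k, b, hk, h⟩ := hpar w₁ w₂ h1
  refine n1 k hk ?_
  have := (Per c₁).add_mem (f1.per_le (hP ▸ h)) ((Per c₁).zsmul_mem p1 b)
  rwa [sub_add_cancel] at this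

end Pool.Agent.P.MP_90314f_co
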