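import Pool.Agent.P.MP_90314f_co.Comb

/-!
The Delone set: the integer lattice in three-space with the marked points removed.
-/

set_option autoImplicit false

namespace Pool.Agent.P.MP_90314f_co

/-- The embedding of the integer lattice. -/
noncomputable def emb (p : ℤ × ℤ × ℤ) : EuclideanSpace ℝ (Fin 3) :=
  !₂[(p.1 : ℝ), (p.2.1 : ℝ), (p.2.2 : ℝ)]

/-- The Delone set. -/
def X : Set (EuclideanSpace ℝ (Fin 3)) :=
  {x | ∃ p : ℤ × ℤ × ℤ, ¬ mark p.1 p.2.1 p.2.2 ∧ x = emb p}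

lemma emb_add (p q : ℤ × ℤ × ℤ) : emb (p + q) = emb p + emb q := by
  ext i
  fin_cases i <;> simp [emb]

lemma emb_sub (p q : ℤ × ℤ × ℤ) : emb (p - q) = emb p - emb q := by
  ext i
  fin_cases i <;> simp [emb]

lemma emb_inj {p q : ℤ × ℤ × ℤ} (h : emb p = emb q) : p = q := by
  have h0 := congrArg (fun x : EuclideanSpace ℝ (Fin 3) => x 0) h
  have h1 := congrArg (fun x : EuclideanSpace ℝ (Fin 3) => x 1) h
  have h2 := congrArg (fun x : EuclideanSpace ℝ (Fin 3) => x 2) h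
  simp [emb] at h0 h1 h2
  exact Prod.ext h0 (Prod.ext h1 h2)

lemma emb_mem {p : ℤ × ℤ × ℤ} : emb p ∈ X ↔ ¬ mark p.1 p.2.1 p.2.2 := by
  constructor
  · rintro ⟨q, hq, h⟩
    rw [emb_inj h]; exact hq
  · intro h
    exact ⟨p, h, rfl⟩

lemma coord_le (p : ℤ × ℤ × ℤ) :
    |(p.1 : ℝ)| ≤ ‖emb p‖ ∧ |(p.2.1 : ℝ)| ≤ ‖emb p‖ ∧ |(p.2.2 : ℝ)| ≤ ‖emb p‖ := by
  have h0 := PiLp.norm_apply_le (emb p) 0
  have h1 := PiLp.norm_apply_le (emb p) 1
  have h2 := PiLp.norm_apply_le (emb p) 2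
  simp only [emb, Real.norm_eq_abs] at h0 h1 h2
  exact ⟨by simpa [emb] using h0, by simpa [emb] using h1, by simpa [emb] using h2⟩

lemma one_le_norm {p : ℤ × ℤ × ℤ} (hp : p ≠ 0) : 1 ≤ ‖emb p‖ := by
  obtain ⟨h0, h1, h2⟩ := coord_le p
  by_contra hlt
  push Not at hlt
  apply hp
  have aux : ∀ a : ℤ, |(a : ℝ)| < 1 → a = 0 := by
    intro a ha
    have : |a| < 1 := by exact_mod_cast ha
    exact Int.abs_lt_one_iff.mp this
  exact Prod.ext (aux _ (by linarith)) (Prod.ext (aux _ (by linarith)) (aux _ (by linarith)))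

theorem separated : ∀ x ∈ X, ∀ y ∈ X, x ≠ y → 2 * (1 / 2 : ℝ) ≤ dist x y := by
  rintro x ⟨p, -, rfl⟩ y ⟨q, -, rfl⟩ hne
  rw [dist_eq_norm, ← emb_sub]
  have : p - q ≠ 0 := fun h => hne (by rw [sub_eq_zero.mp h])
  linarith [one_le_norm this]

theorem covering : ∀ z : EuclideanSpace ℝ (Fin 3), ∃ x ∈ X, dist z x ≤ 3 := by
  intro z
  refine ⟨emb (⌊z 0⌋, ⌊z 1⌋, 4 * ⌊z 2 / 4⌋ + 2), emb_mem.mpr (not_mark _ _ _), ?_⟩
  rw [EuclideanSpace.dist_eq, Fin.sum_univ_three]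
  apply Real.sqrt_le_iff.mpr
  refine ⟨by norm_num, ?_⟩
  simp only [emb, Real.dist_eq, sq_abs]
  have a0 := Int.fract_nonneg (z 0)
  have a1 := Int.fract_lt_one (z 0)
  have b0 := Int.fract_nonneg (z 1)
  have b1 := Int.fract_lt_one (z 1)
  have c0 := Int.floor_le (z 2 / 4)
  have c1 := Int.lt_floor_add_one (z 2 / 4)
  have e0 : Int.fract (z 0) ^ 2 ≤ 1 := by nlinarith
  have e1 : Int.fract (z 1) ^ 2 ≤ 1 := by nlinarith
  have e2 : (z 2 - (4 * (⌊z 2 / 4⌋ : ℝ) + 2)) ^ 2 ≤ 4 := by nlinarith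
  simp
  linarith

lemma patch_subset {n : ℕ} {p q : ℤ × ℤ × ℤ} (h : Same n p q) {t : ℝ} (ht : t < n + 1) :
    (fun y => y - emb p) '' (X ∩ Metric.closedBall (emb p) t) ⊆
      (fun y => y - emb q) '' (X ∩ Metric.closedBall (emb q) t) := by
  rintro _ ⟨y, ⟨⟨s, hs, rfl⟩, hy⟩, rfl⟩
  rw [Metric.mem_closedBall, dist_eq_norm, ← emb_sub] at hy
  obtain ⟨h0, h1, h2⟩ := coord_le (s - p)
  have aux : ∀ a : ℤ, |(a : ℝ)| < n + 1 → |a| ≤ n := by
    intro a ha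
    have : |a| < n + 1 := by exact_mod_cast ha
    omega
  have key := h (s - p).1 (s - p).2.1 (s - p).2.2 (aux _ (by linarith)) (aux _ (by linarith))
    (aux _ (by linarith))
  refine ⟨emb (q + (s - p)), ⟨emb_mem.mpr ?_, ?_⟩, ?_⟩
  · intro hm
    apply hs
    have := key.mpr (by simpa using hm)
    simpa using this
  · rw [Metric.mem_closedBall, dist_eq_norm, ← emb_sub, add_sub_cancel_left]
    exact hy
  · simp only []
    rw [← emb_sub, ← emb_sub, add_sub_cancel_left]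

theorem patches_bound {t : ℝ} (ht : 1 ≤ t) :
    {P : Set (EuclideanSpace ℝ (Fin 3)) |
        ∃ x ∈ X, P = (fun y => y - x) '' (X ∩ Metric.closedBall x t)}.Finite ∧
      (({P : Set (EuclideanSpace ℝ (Fin 3)) |
        ∃ x ∈ X, P = (fun y => y - x) '' (X ∩ Metric.closedBall x t)}.ncard : ℝ)
          ≤ 220 * t ^ 2) := by
  have hn1 : 1 ≤ ⌊t⌋₊ := Nat.le_floor (by exact_mod_cast ht)
  obtain ⟨S, hS, hrep⟩ := exists_reps hn1
  have hlt : t < (⌊t⌋₊ : ℝ) + 1 := Nat.lt_floor_add_one t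
  have hsub : {P : Set (EuclideanSpace ℝ (Fin 3)) |
        ∃ x ∈ X, P = (fun y => y - x) '' (X ∩ Metric.closedBall x t)} ⊆
      (fun q => (fun y => y - emb q) '' (X ∩ Metric.closedBall (emb q) t)) '' (S : Set _) := by
    rintro P ⟨x, ⟨p, -, rfl⟩, rfl⟩
    obtain ⟨q, hq, hpq⟩ := hrep p
    exact ⟨q, hq, Set.Subset.antisymm (patch_subset hpq.symm hlt) (patch_subset hpq hlt)⟩
  have hfin := (S.finite_toSet.image
    (fun q => (fun y => y - emb q) '' (X ∩ Metric.closedBall (emb q) t)))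
  refine ⟨hfin.subset hsub, ?_⟩
  have h1 := Set.ncard_le_ncard hsub hfin
  have h2 := Set.ncard_image_le (f := fun q => (fun y => y - emb q) ''
    (X ∩ Metric.closedBall (emb q) t)) S.finite_toSet
  rw [Set.ncard_coe_finset] at h2
  have h3 : (({P : Set (EuclideanSpace ℝ (Fin 3)) |
        ∃ x ∈ X, P = (fun y => y - x) '' (X ∩ Metric.closedBall x t)}.ncard : ℝ)
          ≤ 220 * (⌊t⌋₊ : ℝ) ^ 2) := by
    exact_mod_cast le_trans h1 (le_trans h2 hS)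
  have h4 : (⌊t⌋₊ : ℝ) ≤ t := Nat.floor_le (by linarith)
  have h5 : (⌊t⌋₊ : ℝ) ^ 2 ≤ t ^ 2 := pow_le_pow_left₀ (Nat.cast_nonneg _) h4 2
  linarith

theorem aperiodic {v : EuclideanSpace ℝ (Fin 3)} (hv : ∀ x, x + v ∈ X ↔ x ∈ X) : v = 0 := by
  have h0 : emb (0, 0, 4 * 0 + 2) ∈ X := emb_mem.mpr (not_mark _ _ _)
  obtain ⟨q, -, hq⟩ := (hv _).mpr h0
  have hvq : v = emb (q - (0, 0, 4 * 0 + 2)) := by
    rw [emb_sub, ← hq]; abel
  set d := q - (0, 0, 4 * 0 + 2) with hd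
  have key : ∀ x y z : ℤ, mark (x + d.1) (y + d.2.1) (z + d.2.2) ↔ mark x y z := by
    intro x y z
    have := hv (emb (x, y, z))
    rw [hvq, ← emb_add, emb_mem, emb_mem] at this
    simpa using not_iff_not.mp this
  obtain ⟨h1, h2, h3⟩ := no_period key
  rw [hvq]
  ext i
  fin_cases i <;> simp [emb, h1, h2, h3]

end Pool.Agent.P.MP_90314f_co
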