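-- Not a hand-in: the negative answer for d = 3, j = 1 is probably known (Cassaigne 2006). Kept as a lemma.
import Pool.Agent.P.MP_90314f_co.Geom

set_option autoImplicit false

namespace Pool.Agent.P90314Neg

/-- The negation of the preceding statement: For all d, 1≤j≤d and r,R>0 there is c>0 such that any (r,R)-Delone set in R^d whose number of distinct translated t-patches is eventually finite and below c·t^(d−j+1) has j linearly independent translation periods. -/
theorem negation :
    ¬ (∀ (d j : ℕ), 1 ≤ j → j ≤ d → ∀ r R : ℝ, 0 < r → 0 < R →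
      ∃ c : ℝ, 0 < c ∧ ∀ X : Set (EuclideanSpace ℝ (Fin d)),
        (∀ x ∈ X, ∀ y ∈ X, x ≠ y → 2 * r ≤ dist x y) →
        (∀ z : EuclideanSpace ℝ (Fin d), ∃ x ∈ X, dist z x ≤ R) →
        (∃ t0 : ℝ, ∀ t : ℝ, t0 < t →
          {P : Set (EuclideanSpace ℝ (Fin d)) |
              ∃ x ∈ X, P = (fun y => y - x) '' (X ∩ Metric.closedBall x t)}.Finite ∧
          (({P : Set (EuclideanSpace ℝ (Fin d)) |
              ∃ x ∈ X, P = (fun y => y - x) '' (X ∩ Metric.closedBall x t)}.ncard : ℝ)
            < c * t ^ (d - j + 1))) →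
        ∃ v : Fin j → EuclideanSpace ℝ (Fin d),
          LinearIndependent ℝ v ∧ ∀ i : Fin j, ∀ x : EuclideanSpace ℝ (Fin d),
            x + v i ∈ X ↔ x ∈ X) := by
  intro h
  obtain ⟨c, hc, hX⟩ := h 3 1 le_rfl (by norm_num) (1 / 2) 3 (by norm_num) (by norm_num)
  obtain ⟨v, hv, hper⟩ := hX Pool.Agent.P.MP_90314f_co.X Pool.Agent.P.MP_90314f_co.separated
    Pool.Agent.P.MP_90314f_co.covering (by
      refine ⟨max 1 (220 / c), fun t ht => ?_⟩
      have ht1 : 1 < t := lt_of_le_of_lt (le_max_left _ _) ht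
      have ht2 : 220 / c < t := lt_of_le_of_lt (le_max_right _ _) ht
      obtain ⟨hfin, hle⟩ := Pool.Agent.P.MP_90314f_co.patches_bound ht1.le
      refine ⟨hfin, lt_of_le_of_lt hle ?_⟩
      have h3 : 220 < c * t := by
        rw [div_lt_iff₀ hc] at ht2
        linarith
      have h4 : 0 < t ^ 2 := by positivity
      calc 220 * t ^ 2 < (c * t) * t ^ 2 := mul_lt_mul_of_pos_right h3 h4
        _ = c * t ^ (3 - 1 + 1) := by norm_num; ring)
  exact hv.ne_zero 0 (Pool.Agent.P.MP_90314f_co.aperiodic (hper 0))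

end Pool.Agent.P90314Neg
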