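import Pool.Agent.P.MP_90314f_co.Approx
import Pool.Agent.P.MP_90314f_co.Comb

/-! Counterexamples for all pairs `(d, j)` with `j ≤ d - 2`: the three-dimensional example times
punctured lines times lines. -/

set_option autoImplicit false

namespace Pool.Agent.P.MP_90314f_co

variable {d : ℕ}

/-- The lattice points that are kept, in dimension `d + 3`. -/
def good (e : ℕ) (p : Fin (d + 3) → ℤ) : Prop :=
  ¬ mark (p 0) (p 1) (p 2) ∧ ∀ i : Fin (d + 3), 3 ≤ i.val → i.val < e → p i ≠ 0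

/-- The Delone set. -/
def XX (d e : ℕ) : Set (E (d + 3)) := cr '' {p | good e p}

theorem cr_injective : Function.Injective (cr (d := d)) := fun x y h => by
  ext i
  exact Int.cast_injective (α := ℝ) (congrArg (fun v : E d => v i) h)

theorem cr_mem {e : ℕ} {p : Fin (d + 3) → ℤ} : cr p ∈ XX d e ↔ good e p :=
  cr_injective.mem_set_image

theorem abs_le_norm_cr (p : Fin d → ℤ) (i : Fin d) : ((|p i| : ℤ) : ℝ) ≤ ‖cr p‖ := by
  have := PiLp.norm_apply_le (cr p) i
  rwa [cr_apply, Real.norm_eq_abs, ← Int.cast_abs] at this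

theorem good_four (e : ℕ) (m : Fin (d + 3) → ℤ) : good e fun i => 4 * m i + 2 :=
  ⟨not_mark _ _ _, fun i _ _ => by simp only []; omega⟩

theorem XX_delone (d e : ℕ) :
    IsDelone (1 / 2) (4 * (d + 3 : ℕ) + ‖cr fun _ : Fin (d + 3) => 2‖) (XX d e) := by
  constructor
  · rintro _ ⟨p, -, rfl⟩ _ ⟨q, -, rfl⟩ hne
    rw [dist_eq_norm, ← map_sub]
    obtain ⟨i, hi⟩ := Function.ne_iff.1 fun h : p = q => hne (by rw [h])
    have h1 : (1 : ℤ) ≤ |(p - q) i| := Int.one_le_abs (sub_ne_zero.2 hi)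
    have h2 : (1 : ℝ) ≤ ((|(p - q) i| : ℤ) : ℝ) := by exact_mod_cast h1
    linarith [abs_le_norm_cr (p - q) i]
  · intro z
    refine ⟨_, cr_mem.2 (good_four e (flo ((4 : ℝ)⁻¹ • z))), ?_⟩
    have h1 : cr (fun i => 4 * flo ((4 : ℝ)⁻¹ • z) i + 2) - z =
        (4 : ℝ) • (cr (flo ((4 : ℝ)⁻¹ • z)) - (4 : ℝ)⁻¹ • z) + cr fun _ => 2 := by
      ext i
      simp
      ring
    rw [dist_comm, dist_eq_norm, h1]
    refine (norm_add_le _ _).trans (add_le_add ?_ le_rfl)
    rw [norm_smul, Real.norm_ofNat]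
    exact mul_le_mul_of_nonneg_left (norm_flo _) (by norm_num)

theorem XX_patches (d e : ℕ) {t : ℝ} (ht : 1 ≤ t) : (patches (XX d e) t).Finite ∧
    ((patches (XX d e) t).ncard : ℝ) ≤ 220 * t ^ 2 * (5 * t) ^ (e - 3) := by
  classical
  have hn1 : 1 ≤ ⌊t⌋₊ := Nat.le_floor (by exact_mod_cast ht)
  set n := ⌊t⌋₊ with hn
  obtain ⟨S, hS, hrep⟩ := exists_reps hn1
  choose rep hrepS hrep using hrep
  let I := {i : Fin (d + 3) // 3 ≤ i.val ∧ i.val < e}
  let F : (Fin (d + 3) → ℤ) → (ℤ × ℤ × ℤ) × (I → ℤ) := fun p =>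
    (rep (p 0, p 1, p 2), fun i => max (-(n + 1)) (min (p i.1) (n + 1)))
  let T := S ×ˢ Fintype.piFinset fun _ : I => Finset.Icc (-((n : ℤ) + 1)) (n + 1)
  have hF : ∀ p p', F p = F p' → pat (XX d e) (cr p) t ⊆ pat (XX d e) (cr p') t := by
    intro p p' h v hv
    obtain ⟨⟨s, hs, h1⟩, h2⟩ := mem_pat.1 hv
    obtain rfl : v = cr (s - p) := by rw [map_sub, h1, add_sub_cancel_left]
    refine mem_pat.2 ⟨?_, h2⟩
    have hu : ∀ i, |(s - p) i| ≤ n := fun i => by
      have h3 := (abs_le_norm_cr (s - p) i).trans_lt (h2.trans_lt (Nat.lt_floor_add_one t))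
      have h4 : |(s - p) i| < n + 1 := by exact_mod_cast h3
      omega
    obtain ⟨h3, h4⟩ := Prod.ext_iff.1 h
    rw [← map_add, cr_mem]
    refine ⟨fun hm => hs.1 ?_, fun i hi hi' h0 => hs.2 i hi hi' ?_⟩
    · have h5 := hrep (p 0, p 1, p 2) _ _ _ (hu 0) (hu 1) (hu 2)
      have h6 := hrep (p' 0, p' 1, p' 2) _ _ _ (hu 0) (hu 1) (hu 2)
      have h7 : rep (p 0, p 1, p 2) = rep (p' 0, p' 1, p' 2) := h3
      rw [h7, ← h6] at h5
      simpa using h5.2 hm
    · have h5 : max (-((n : ℤ) + 1)) (min (p i) (n + 1)) =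
          max (-((n : ℤ) + 1)) (min (p' i) (n + 1)) := congrFun h4 ⟨i, hi, hi'⟩
      have h6 := abs_le.1 (hu i)
      simp only [Pi.add_apply, Pi.sub_apply] at h0 h6
      omega
  have hsub : patches (XX d e) t ⊆
      (fun τ => pat (XX d e) (cr (Function.invFun F τ)) t) '' (T : Set _) := by
    rintro _ ⟨_, ⟨p, -, rfl⟩, rfl⟩
    have h1 : F (Function.invFun F (F p)) = F p := Function.invFun_eq ⟨p, rfl⟩
    refine ⟨F p, Finset.mem_coe.2 (Finset.mem_product.2 ⟨hrepS _, Fintype.mem_piFinset.2 fun i =>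
      Finset.mem_Icc.2 ⟨le_max_left _ _, max_le (by omega) (min_le_right _ _)⟩⟩),
      (hF _ _ h1).antisymm (hF _ _ h1.symm)⟩
  have hfin := T.finite_toSet.image fun τ => pat (XX d e) (cr (Function.invFun F τ)) t
  refine ⟨hfin.subset hsub, ?_⟩
  have h1 := (Set.ncard_le_ncard hsub hfin).trans (Set.ncard_image_le T.finite_toSet)
  have hI : Fintype.card I ≤ e - 3 := by
    rw [← Nat.card_Ico, ← Fintype.card_coe]
    exact Fintype.card_le_of_injective (fun i => ⟨i.1.val, Finset.mem_Ico.2 i.2⟩)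
      fun i j h => Subtype.ext (Fin.ext (congrArg Subtype.val h))
  have h2 : T.card ≤ 220 * n ^ 2 * (5 * n) ^ (e - 3) := by
    rw [Finset.card_product, Fintype.card_piFinset, Finset.prod_const, Finset.card_univ,
      Int.card_Icc]
    refine Nat.mul_le_mul hS ((Nat.pow_le_pow_left (by omega : _ ≤ 5 * n) _).trans
      (Nat.pow_le_pow_right (by omega) hI))
  rw [Set.ncard_coe_finset] at h1
  have h3 : ((patches (XX d e) t).ncard : ℝ) ≤ 220 * (n : ℝ) ^ 2 * (5 * n) ^ (e - 3) := by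
    exact_mod_cast h1.trans h2
  have h4 : (n : ℝ) ≤ t := Nat.floor_le (by linarith)
  refine h3.trans ?_
  gcongr

theorem XX_period {e : ℕ} {v : E (d + 3)} (hv : ∀ x, x + v ∈ XX d e ↔ x ∈ XX d e)
    (i : Fin (d + 3)) (hi : i.val < 3 ∨ i.val < e) : v i = 0 := by
  classical
  obtain ⟨q, -, hq⟩ := (hv _).2 (cr_mem.2 (good_four e 0))
  obtain ⟨w, rfl⟩ : ∃ w, v = cr w := ⟨q - fun i => 4 * (0 : Fin (d + 3) → ℤ) i + 2, by
    rw [map_sub, hq, add_sub_cancel_left]⟩
  have key : ∀ p, good e (p + w) ↔ good e p := fun p => by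
    rw [← cr_mem, ← cr_mem, map_add, hv]
  have h3 : ∀ i : Fin (d + 3), 3 ≤ i.val → i.val < e → w i = 0 := fun i hi hi' => by
    by_contra hne
    have hk : ∀ k : Fin (d + 3), k.val < 3 → k ≠ i := fun k hk h => by omega
    have h1 : good e (Function.update (fun _ => 2) i (-w i)) := by
      refine ⟨?_, fun k _ _ => ?_⟩
      · rw [Function.update_of_ne (hk 2 (by rw [Fin.val_two]; omega))]
        exact not_mark _ _ 0
      · by_cases h : k = i
        · rw [h, Function.update_self]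
          omega
        · rw [Function.update_of_ne h]
          norm_num
    exact ((key _).2 h1).2 i hi hi' (by simp)
  have h4 := no_period (a := w 0) (b := w 1) (c := w 2) fun x y z => by
    have h1 := key (Fin.cons x (Fin.cons y (Fin.cons z fun _ => 1)))
    have h2 : ∀ k : Fin (d + 3), 3 ≤ k.val →
        (Fin.cons x (Fin.cons y (Fin.cons z fun _ => 1)) : Fin (d + 3) → ℤ) k = 1 := by
      intro k hk
      obtain ⟨l, rfl⟩ : ∃ l : Fin d, k = l.succ.succ.succ :=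
        ⟨⟨k.val - 3, by omega⟩, Fin.ext (by simp; omega)⟩
      rfl
    have h5 : ¬ mark (x + w 0) (y + w 1) (z + w 2) ↔ ¬ mark x y z :=
      ⟨fun h => (h1.1 ⟨h, fun k hk hk' => by rw [Pi.add_apply, h2 k hk, h3 k hk hk']; norm_num⟩).1,
        fun h => (h1.2 ⟨h, fun k hk _ => by rw [h2 k hk]; norm_num⟩).1⟩
    exact not_iff_not.1 h5
  rw [cr_apply, Int.cast_eq_zero]
  by_cases h5 : 3 ≤ i.val
  · exact h3 i h5 (by omega)
  · have h6 : i = 0 ∨ i = 1 ∨ i = 2 := by
      simp only [Fin.ext_iff, Fin.val_zero, Fin.val_one, Fin.val_two]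
      omega
    rcases h6 with rfl | rfl | rfl
    exacts [h4.1, h4.2.1, h4.2.2]

theorem main_neg {d j : ℕ} (hj : 1 ≤ j) (hd : j + 2 ≤ d) : ¬ PeriodConj d j := by
  obtain ⟨d, rfl⟩ : ∃ d', d = d' + 3 := ⟨d - 3, by omega⟩
  intro h
  obtain ⟨e, he⟩ : ∃ e, d + 3 - j + 1 = e + 3 := ⟨d + 1 - j, by omega⟩
  obtain ⟨c, hc, hX⟩ := h (1 / 2) _ (by norm_num)
    (by positivity : 0 < 4 * ((d + 3 : ℕ) : ℝ) + ‖cr fun _ : Fin (d + 3) => 2‖)
  obtain ⟨v, hv, hper⟩ := hX (XX d (e + 3)) (XX_delone d _) ⟨max 1 (220 * 5 ^ e / c), fun t ht => by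
    have ht1 : 1 < t := (le_max_left _ _).trans_lt ht
    have ht2 : 220 * 5 ^ e / c < t := (le_max_right _ _).trans_lt ht
    obtain ⟨h1, h2⟩ := XX_patches d (e + 3) ht1.le
    refine ⟨h1, h2.trans_lt ?_⟩
    rw [div_lt_iff₀ hc] at ht2
    rw [he, Nat.add_sub_cancel]
    calc 220 * t ^ 2 * (5 * t) ^ e = 220 * 5 ^ e * t ^ (e + 2) := by ring
      _ < t * c * t ^ (e + 2) := mul_lt_mul_of_pos_right ht2 (by positivity)
      _ = c * t ^ (e + 3) := by ring⟩
  have h1 : LinearIndependent ℝ fun (i : Fin j) (k : Fin (j - 1)) =>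
      v i ⟨e + 3 + k.val, by omega⟩ := by
    rw [Fintype.linearIndependent_iff] at hv ⊢
    intro g hg
    refine hv g ?_
    ext k
    by_cases hk : k.val < e + 3
    · simp [XX_period (hper _) k (Or.inr hk)]
    · have h2 := congrFun hg ⟨k.val - (e + 3), by omega⟩
      have h3 : (⟨e + 3 + (k.val - (e + 3)), by omega⟩ : Fin (d + 3)) = k := Fin.ext (by simp; omega)
      simpa [h3] using h2
  have h2 := h1.fintype_card_le_finrank
  simp only [Fintype.card_fin, Module.finrank_fintype_fun_eq_card] at h2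
  omega

end Pool.Agent.P.MP_90314f_co
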