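import Mathlib

/-! The group algebra acting on functions by translations, annihilators, and the Frobenius
argument of Kari and Szabados. -/

set_option autoImplicit false

namespace Pool.Agent.P.MP_90314f_co

open AddMonoidAlgebra

variable {G : Type} [AddCommGroup G]

/-- The group algebra acts on functions by translations. -/
noncomputable def act (K : Type) [CommRing K] :
    AddMonoidAlgebra K G →ₐ[K] Module.End K (G → K) :=
  AddMonoidAlgebra.lift K (Module.End K (G → K)) G
    { toFun := fun g => LinearMap.funLeft K K fun x => x + g.toAdd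
      map_one' := by ext c x; simp
      map_mul' := fun g h => by ext c x; simp [add_assoc] }

theorem act_single {K : Type} [CommRing K] (g : G) (a : K) (c : G → K) (x : G) :
    act K (single g a) c x = a * c (x + g) := by
  simp [act]

theorem act_mul {K : Type} [CommRing K] (f g : AddMonoidAlgebra K G) (c : G → K) :
    act K (f * g) c = act K f (act K g c) := by
  rw [map_mul]; rfl

theorem act_sum {K : Type} [CommRing K] {I : Type} (s : Finset I) (f : I → AddMonoidAlgebra K G)
    (c : G → K) (x : G) : act K (∑ i ∈ s, f i) c x = ∑ i ∈ s, act K (f i) c x := by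
  simp [map_sum, LinearMap.sum_apply, Finset.sum_apply]

/-- The annihilator ideal of a function. -/
noncomputable def Ann (c : G → ℂ) : Ideal (AddMonoidAlgebra ℂ G) where
  carrier := {f | act ℂ f c = 0}
  add_mem' := fun {f g} hf hg => by
    simp only [Set.mem_ofPred_eq] at hf hg ⊢
    rw [map_add, LinearMap.add_apply, hf, hg, add_zero]
  zero_mem' := by simp
  smul_mem' := fun g f hf => by
    simp only [Set.mem_ofPred_eq] at hf ⊢
    rw [smul_eq_mul, act_mul, hf, map_zero]

theorem mem_Ann {c : G → ℂ} {f : AddMonoidAlgebra ℂ G} : f ∈ Ann c ↔ act ℂ f c = 0 := Iff.rfl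

theorem mem_Ann_act {c : G → ℂ} {f g : AddMonoidAlgebra ℂ G} :
    f ∈ Ann (act ℂ g c) ↔ f * g ∈ Ann c := by
  rw [mem_Ann, mem_Ann, act_mul]

theorem Ann_le (c : G → ℂ) (g : AddMonoidAlgebra ℂ G) : Ann c ≤ Ann (act ℂ g c) :=
  fun _ hf => mem_Ann_act.2 (Ideal.mul_mem_right _ _ hf)

theorem frob_prime {I : Type} [Fintype I] (A : I → ℤ) (g : I → G) (η : G → ℤ) (B : ℕ)
    (hB : ∀ x, |η x| ≤ B) (h : ∀ x, ∑ i, A i * η (x + g i) = 0) {p : ℕ} (hp : p.Prime)
    (hlt : ∑ i, |A i| * B < p) (x : G) : ∑ i, A i * η (x + p • g i) = 0 := by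
  have : Fact p.Prime := ⟨hp⟩
  have : CharP (AddMonoidAlgebra (ZMod p) G) p :=
    charP_of_injective_algebraMap (R := ZMod p) (fun a b hab => by
      simpa using hab) p
  let f : AddMonoidAlgebra (ZMod p) G := ∑ i, single (g i) (A i : ZMod p)
  let c : G → ZMod p := fun x => (η x : ZMod p)
  have h1 : act (ZMod p) f c = 0 := by
    ext y
    have := congrArg (Int.cast : ℤ → ZMod p) (h y)
    push_cast at this
    simpa only [f, c, act_sum, act_single, Pi.zero_apply] using this
  have h2 : act (ZMod p) (f ^ p) c = 0 := by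
    rw [← pow_sub_one_mul hp.ne_zero f, act_mul, h1, map_zero]
  have h3 : f ^ p = ∑ i, single (p • g i) (A i : ZMod p) := by
    simp only [f, sum_pow_char, single_pow, ZMod.pow_card]
  have h4 : ((∑ i, A i * η (x + p • g i) : ℤ) : ZMod p) = 0 := by
    have := congrFun h2 x
    rw [h3] at this
    push_cast
    simpa only [c, act_sum, act_single, Pi.zero_apply] using this
  refine Int.eq_zero_of_abs_lt_dvd ((ZMod.intCast_zmod_eq_zero_iff_dvd _ p).1 h4) ?_
  refine lt_of_le_of_lt ((Finset.abs_sum_le_sum_abs _ _).trans (Finset.sum_le_sum fun i _ => ?_))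
    hlt
  rw [abs_mul]
  exact mul_le_mul_of_nonneg_left (hB _) (abs_nonneg _)

theorem frob {I : Type} [Fintype I] (A : I → ℤ) (g : I → G) (η : G → ℤ) (B : ℕ)
    (hB : ∀ x, |η x| ≤ B) (h : ∀ x, ∑ i, A i * η (x + g i) = 0) (N : ℕ) (hN : 0 < N) :
    ∃ r : ℕ, 0 < r ∧ N ∣ r ∧ ∀ k x, ∑ i, A i * η (x + (1 + k * r) • g i) = 0 := by
  obtain ⟨M, hM⟩ : ∃ M : ℕ, ∑ i, |A i| * B ≤ M := ⟨(∑ i, |A i| * B).toNat, Int.self_le_toNat _⟩
  have key : ∀ n : ℕ, 0 < n → (∀ p : ℕ, p.Prime → p ∣ n → M < p) →
      ∀ x, ∑ i, A i * η (x + n • g i) = 0 := by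
    intro n
    induction n using induction_on_primes with
    | zero => intro h0; exact absurd h0 (lt_irrefl 0)
    | one => intro _ _ x; simpa using h x
    | prime_mul p n hp ih =>
      intro hpos hdiv x
      have h1 := ih (Nat.pos_of_mul_pos_left hpos) fun q hq hqn => hdiv q hq (hqn.mul_left p)
      have h2 := frob_prime A (fun i => n • g i) η B hB h1 hp
        (lt_of_le_of_lt hM (by exact_mod_cast hdiv p hp (dvd_mul_right p n))) x
      simpa only [mul_smul] using h2
  refine ⟨N * M.factorial, Nat.mul_pos hN M.factorial_pos, dvd_mul_right _ _, fun k => ?_⟩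
  refine key _ (by omega) fun p hp hd => ?_
  by_contra hle
  have h1 : p ∣ k * (N * M.factorial) :=
    ((hp.dvd_factorial.2 (not_lt.1 hle)).mul_left N).mul_left k
  exact hp.one_lt.ne' (Nat.dvd_one.1 ((Nat.dvd_add_left h1).1 hd))

theorem elim {R J : Type} [CommRing R] [DecidableEq J] (I : Ideal R) (y : J → R) (j₀ : J)
    (s : Finset J) (hj : j₀ ∉ s) :
    ∀ a : J → R, (∀ k : ℕ, a j₀ * y j₀ ^ k + ∑ j ∈ s, a j * y j ^ k ∈ I) →
      a j₀ * ∏ j ∈ s, (y j₀ - y j) ∈ I := by
  induction s using Finset.induction_on with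
  | empty => intro a h; simpa using h 0
  | insert j₁ s h1 ih =>
    intro a h
    have := ih (fun h0 => hj (Finset.mem_insert_of_mem h0)) (fun j => a j * (y j - y j₁))
      fun k => by
        have h2 := I.sub_mem (h (k + 1)) (I.mul_mem_left (y j₁) (h k))
        convert h2 using 1
        rw [Finset.sum_insert h1, Finset.sum_insert h1, mul_add, mul_add, Finset.mul_sum]
        have : ∑ j ∈ s, a j * (y j - y j₁) * y j ^ k =
            ∑ j ∈ s, a j * y j ^ (k + 1) - ∑ j ∈ s, y j₁ * (a j * y j ^ k) := by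
          rw [← Finset.sum_sub_distrib]
          exact Finset.sum_congr rfl fun j _ => by ring
        rw [this]
        ring
    rw [Finset.prod_insert h1, ← mul_assoc]
    exact this

theorem exists_rat_functional {I : Type} [Fintype I] (a v : I → ℂ) (h : ∑ i, a i * v i ≠ 0) :
    ∃ l : ℂ →ₗ[ℚ] ℚ, ∑ i, (l (a i) : ℂ) * v i ≠ 0 := by
  classical
  by_contra hcon
  push Not at hcon
  apply h
  let b := Module.Basis.ofVectorSpace ℚ ℂ
  let s := Finset.univ.biUnion fun i => (b.repr (a i)).support
  have h1 : ∀ i, a i = ∑ β ∈ s, (b.coord β (a i) : ℂ) * b β := fun i => by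
    conv_lhs => rw [← b.linearCombination_repr (a i), Finsupp.linearCombination_apply]
    rw [Finsupp.sum_of_support_subset _ (Finset.subset_biUnion_of_mem
      (fun i => (b.repr (a i)).support) (Finset.mem_univ i)) _ (by simp)]
    exact Finset.sum_congr rfl fun β _ => by simp [Rat.smul_def]
  calc ∑ i, a i * v i = ∑ i, ∑ β ∈ s, (b.coord β (a i) : ℂ) * v i * b β := by
        refine Finset.sum_congr rfl fun i _ => ?_
        conv_lhs => rw [h1 i, Finset.sum_mul]
        exact Finset.sum_congr rfl fun β _ => by ring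
    _ = 0 := by
        rw [Finset.sum_comm]
        refine Finset.sum_eq_zero fun β _ => ?_
        rw [← Finset.sum_mul, hcon, zero_mul]

/-- A complex relation between integers gives an integral one with a prescribed non-vanishing
property. -/
theorem exists_int_rel {I I' X : Type} [Fintype I] [Fintype I'] (a : I → ℂ) (n : X → I → ℤ)
    (h : ∀ x, ∑ i, a i * n x i = 0) (e : I' → I) (v : I' → ℂ) (hv : ∑ i, a (e i) * v i ≠ 0) :
    ∃ A : I → ℤ, (∀ x, ∑ i, A i * n x i = 0) ∧ ∑ i, (A (e i) : ℂ) * v i ≠ 0 := by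
  obtain ⟨l, hl⟩ := exists_rat_functional (fun i => a (e i)) v hv
  obtain ⟨b, hb⟩ := IsLocalization.exist_integer_multiples_of_finite (nonZeroDivisors ℤ)
    (fun i => l (a i))
  choose A hA using hb
  have hA' : ∀ i, (A i : ℚ) = (b : ℤ) * l (a i) := fun i => by simpa using hA i
  refine ⟨A, fun x => ?_, ?_⟩
  · have h1 := congrArg l (h x)
    rw [map_sum, map_zero] at h1
    have h2 : ∀ i, l (a i * n x i) = l (a i) * n x i := fun i => by
      rw [mul_comm, ← zsmul_eq_mul, map_zsmul, zsmul_eq_mul, mul_comm]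
    simp only [h2] at h1
    have h3 : ((∑ i, A i * n x i : ℤ) : ℚ) = 0 := by
      push_cast
      simp only [hA', mul_assoc]
      rw [← Finset.mul_sum, h1, mul_zero]
    exact_mod_cast h3
  · have h2 : ∀ i, (A i : ℂ) = ((b : ℤ) : ℂ) * (l (a i) : ℂ) := fun i => by
      exact_mod_cast congrArg (Rat.cast : ℚ → ℂ) (hA' i)
    simp only [h2, mul_assoc]
    rw [← Finset.mul_sum]
    exact mul_ne_zero (by exact_mod_cast nonZeroDivisors.ne_zero b.2) hl

end Pool.Agent.P.MP_90314f_co
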