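import Pool.Agent.P.MP_90314f_co.Approx
import Pool.Agent.P.MP_90314f_co.Core

/-! Reduction of Delone sets to lattice configurations. -/

set_option autoImplicit false

namespace Pool.Agent.P.MP_90314f_co

variable {d : ℕ}

theorem exists_orth (S : AddSubgroup (Fin d → ℤ)) (hS : rk S + 2 ≤ d) :
    ∃ u₁ u₂ : E d, ‖u₁‖ = 1 ∧ ‖u₂‖ = 1 ∧ inner ℝ u₁ u₂ = 0 ∧
      ∀ s ∈ S, inner ℝ u₁ (cr s) = 0 ∧ inner ℝ u₂ (cr s) = 0 := by
  obtain ⟨f, hf, hspan, -⟩ := Submodule.exists_fun_fin_finrank_span_eq ℚ (cq '' (S : Set (Fin d → ℤ)))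
  choose g hg hgf using hf
  let U : Submodule ℝ (E d) := Submodule.span ℝ (Set.range fun i => cr (g i))
  have h1 : Module.finrank ℝ U ≤ rk S := by
    have := finrank_range_le_card (R := ℝ) fun i => cr (g i)
    rw [Fintype.card_fin] at this
    exact this
  have h2 := U.finrank_add_finrank_orthogonal
  rw [finrank_euclideanSpace_fin] at h2
  have h3 : 2 ≤ Module.finrank ℝ Uᗮ := by omega
  have hU : ∀ s ∈ S, cr s ∈ U := fun s hs => by
    have h4 : cq s ∈ Submodule.span ℚ (Set.range f) := by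
      rw [hspan]; exact Submodule.subset_span ⟨s, hs, rfl⟩
    obtain ⟨c, hc⟩ := (Submodule.mem_span_range_iff_exists_fun ℚ).1 h4
    refine (Submodule.mem_span_range_iff_exists_fun ℝ).2 ⟨fun i => c i, ?_⟩
    ext j
    have h5 := congrArg (Rat.cast : ℚ → ℝ) (congrFun hc j)
    simpa [← hgf, cq_apply] using h5
  let o := stdOrthonormalBasis ℝ Uᗮ
  refine ⟨o ⟨0, by omega⟩, o ⟨1, by omega⟩, o.orthonormal.1 _, o.orthonormal.1 _,
    o.orthonormal.2 (by simp), fun s hs => ⟨?_, ?_⟩⟩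
  · exact Submodule.inner_left_of_mem_orthogonal (hU s hs) (o _).2
  · exact Submodule.inner_left_of_mem_orthogonal (hU s hs) (o _).2

theorem finite_ball (Q : ℝ) : {o : Fin d → ℤ | ‖cr o‖ ≤ Q}.Finite := by
  refine (Set.finite_Icc (fun _ => -⌈Q⌉) fun _ => ⌈Q⌉).subset fun o ho => ?_
  have h1 : ∀ i, |o i| ≤ ⌈Q⌉ := fun i => by
    have h2 := (PiLp.norm_apply_le (cr o) i).trans (le_trans ho (Int.le_ceil Q))
    rw [cr_apply, Real.norm_eq_abs] at h2
    exact_mod_cast h2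
  exact ⟨fun i => (abs_le.1 (h1 i)).1, fun i => (abs_le.1 (h1 i)).2⟩

/-- An address map. -/
structure Addr (X : Set (E d)) (q : ℝ) (Φ : E d → Fin d → ℤ) : Prop where
  pos : 0 < q
  tr : ∀ x ∈ X, ∀ y ∈ X, ∀ x' ∈ X, ∀ y' ∈ X, y - x = y' - x' → Φ y - Φ x = Φ y' - Φ x'
  near : ∀ x ∈ X, ∀ y ∈ X, ‖cr (Φ y - Φ x) - q • (y - x)‖ ≤ q / 10 * ‖y - x‖

/-- The lattice configuration: the address of a point carries the patch of the point. -/
def col (X : Set (E d)) (Φ : E d → Fin d → ℤ) (ρ : ℝ) (z : Fin d → ℤ) : Set (Set (E d)) :=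
  {P | ∃ x ∈ X, Φ x = z ∧ P = pat X x ρ}

theorem col_finite {X : Set (E d)} (Φ : E d → Fin d → ℤ) {ρ : ℝ} (h : (patches X ρ).Finite) :
    (Set.range (col X Φ ρ)).Finite := by
  refine h.finite_subsets.subset ?_
  rintro _ ⟨z, rfl⟩ _ ⟨x, hx, -, rfl⟩
  exact ⟨x, hx, rfl⟩

namespace Addr

variable {X : Set (E d)} {r R q : ℝ} {Φ : E d → Fin d → ℤ} (A : Addr X q Φ)
include A

theorem lower {x y : E d} (hx : x ∈ X) (hy : y ∈ X) :
    9 * q / 10 * ‖y - x‖ ≤ ‖cr (Φ y - Φ x)‖ := by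
  have h1 := A.near x hx y hy
  have h2 := norm_sub_norm_le (q • (y - x)) (cr (Φ y - Φ x))
  rw [norm_smul, Real.norm_of_nonneg A.pos.le, norm_sub_rev (q • (y - x))] at h2
  linarith

theorem inj {x y : E d} (hx : x ∈ X) (hy : y ∈ X) (h : Φ x = Φ y) : x = y := by
  have h1 := A.lower hx hy
  rw [h, sub_self, map_zero, norm_zero] at h1
  have h2 := A.pos
  have h3 : ‖y - x‖ ≤ 0 := by
    by_contra h4
    have : 0 < 9 * q / 10 * ‖y - x‖ := mul_pos (by positivity) (not_le.1 h4)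
    linarith
  exact (sub_eq_zero.1 (norm_le_zero_iff.1 h3)).symm

theorem dense (h : IsDelone r R X) (hR : 0 < R) (z : Fin d → ℤ) :
    ∃ x ∈ X, ‖cr (z - Φ x)‖ ≤ 5 / 4 * (q * R) := by
  have hq := A.pos
  have hqR := mul_pos hq hR
  have key : ∀ n : ℕ, ∀ x ∈ X, ‖cr (z - Φ x)‖ ≤ n * (q * R / 40) →
      ∃ x ∈ X, ‖cr (z - Φ x)‖ ≤ 5 / 4 * (q * R) := by
    intro n
    induction n with
    | zero => intro x hx h1; exact ⟨x, hx, h1.trans (by simp; positivity)⟩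
    | succ n ih =>
      intro x hx h1
      by_cases h2 : ‖cr (z - Φ x)‖ ≤ 5 / 4 * (q * R)
      · exact ⟨x, hx, h2⟩
      obtain ⟨x', hx', h3⟩ := h.2 (x + q⁻¹ • cr (z - Φ x))
      rw [dist_eq_norm] at h3
      refine ih x' hx' ?_
      have h4 := A.near x hx x' hx'
      have h5 : q * ‖x' - x‖ ≤ ‖cr (z - Φ x)‖ + q * R := by
        have : x' - x = q⁻¹ • cr (z - Φ x) - (x + q⁻¹ • cr (z - Φ x) - x') := by abel
        have h6 : ‖x' - x‖ ≤ q⁻¹ * ‖cr (z - Φ x)‖ + R := by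
          rw [this]
          refine (norm_sub_le _ _).trans ?_
          rw [norm_smul, Real.norm_of_nonneg (inv_nonneg.2 hq.le)]
          linarith
        have h7 := mul_le_mul_of_nonneg_left h6 hq.le
        rwa [mul_add, mul_inv_cancel_left₀ hq.ne'] at h7
      have h6 : cr (z - Φ x') = q • (x + q⁻¹ • cr (z - Φ x) - x') -
          (cr (Φ x' - Φ x) - q • (x' - x)) := by
        simp only [smul_sub, smul_add, smul_inv_smul₀ hq.ne', map_sub]
        abel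
      have h7 : ‖q • (x + q⁻¹ • cr (z - Φ x) - x')‖ ≤ q * R := by
        rw [norm_smul, Real.norm_of_nonneg hq.le]
        exact mul_le_mul_of_nonneg_left h3 hq.le
      rw [h6]
      refine (norm_sub_le _ _).trans ?_
      push_cast at h1
      linarith
  obtain ⟨x, hx, -⟩ := h.2 0
  exact key ⌈‖cr (z - Φ x)‖ / (q * R / 40)⌉₊ x hx
    ((div_le_iff₀ (by positivity)).1 (Nat.le_ceil _))

theorem agree {x x' : E d} (hx : x ∈ X) (hx' : x' ∈ X) {ρ t : ℝ} (hρ : 0 ≤ ρ)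
    (h : pat X x t = pat X x' t) {v : Fin d → ℤ} (hv : ‖cr v‖ ≤ 9 * q / 10 * (t - ρ)) :
    col X Φ ρ (Φ x + v) = col X Φ ρ (Φ x' + v) := by
  have key : ∀ x ∈ X, ∀ x' ∈ X, pat X x t = pat X x' t →
      col X Φ ρ (Φ x + v) ⊆ col X Φ ρ (Φ x' + v) := by
    rintro x hx x' hx' h _ ⟨y, hy, h1, rfl⟩
    have h2 := A.lower hx hy
    rw [h1, add_sub_cancel_left] at h2
    have hq := A.pos
    have h3 : ‖y - x‖ ≤ t - ρ := le_of_mul_le_mul_left (h2.trans hv) (by positivity)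
    have h4 : y - x ∈ pat X x' t := h ▸ mem_pat.2 ⟨by simpa using hy, by linarith⟩
    have h5 := (mem_pat.1 h4).1
    refine ⟨_, h5, ?_, ?_⟩
    · have := A.tr x hx y hy x' hx' _ h5 (by abel)
      rw [h1, add_sub_cancel_left] at this
      rw [this]
      abel
    · rw [← pat_move h (by linarith), add_sub_cancel]
  exact (key x hx x' hx' h).antisymm (key x' hx' x hx h.symm)

theorem low (h : IsDelone r R X) (hR : 0 < R) (hd : 20 * d + 1 ≤ q * R)
    (hp : ∀ t₀ : ℝ, ∃ t, t₀ < t ∧ (patches X t).Finite ∧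
      ((patches X t).ncard : ℝ) < (t / (5 * R)) ^ 2) : Low (col X Φ (3 * R)) := by
  classical
  intro S hS K
  have hq := A.pos
  obtain ⟨u₁, u₂, n₁, n₂, h12, horth⟩ := exists_orth S hS
  obtain ⟨κ, hκ⟩ : ∃ κ : ℝ, ∀ k ∈ K, ‖cr k‖ ≤ q * κ := by
    obtain ⟨κ, hκ⟩ := (K.finite_toSet.image fun k => ‖cr k‖).bddAbove
    exact ⟨κ / q, fun k hk => by rw [mul_div_cancel₀ _ hq.ne']; exact hκ ⟨k, hk, rfl⟩⟩
  obtain ⟨t, ht, hfin, hcard⟩ := hp (max (100 * R + 10 * κ) 0)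
  have ht1 : 100 * R + 10 * κ < t := (le_max_left _ _).trans_lt ht
  have ht0 : 0 < t := (le_max_right _ _).trans_lt ht
  choose y hy hyz using A.dense h hR
  set a := q * R with ha
  have hBf := finite_ball (d := d) (5 / 4 * a)
  let mk : (Fin d → ℤ) → (Fin d → ℤ) ⧸ S := QuotientAddGroup.mk
  obtain ⟨O, hO, hinj, himg⟩ := Finset.exists_subset_injOn_image_eq_of_surjOn (f := mk)
    {o | ‖cr o‖ ≤ 5 / 4 * a} (hBf.toFinset.image mk) (by simp [Set.SurjOn])
  let m := ⌈t / (5 * R)⌉₊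
  let p : Fin m → Fin m → E d := fun i j => (13 / 5 * a) • ((i : ℝ) • u₁ + (j : ℝ) • u₂)
  have ha0 : 0 < a := mul_pos hq hR
  have hdiff : ∀ (i j i' j' : Fin m) (o o' : O), ∃ e : E d, ‖e‖ ≤ 5 / 2 * a + 2 * d ∧
      cr (flo (p i j) + o.1 - (flo (p i' j') + o'.1)) =
        (13 / 5 * a) • (((i : ℝ) - i') • u₁ + ((j : ℝ) - j') • u₂) + e := by
    intro i j i' j' o o'
    refine ⟨(cr (flo (p i j)) - p i j) - (cr (flo (p i' j')) - p i' j') + (cr o - cr o'), ?_, ?_⟩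
    · have h1 := norm_flo (p i j)
      have h2 := norm_flo (p i' j')
      have h3 : ‖cr (o : Fin d → ℤ)‖ ≤ 5 / 4 * a := hO o.2
      have h4 : ‖cr (o' : Fin d → ℤ)‖ ≤ 5 / 4 * a := hO o'.2
      refine (norm_add_le _ _).trans ((add_le_add (norm_sub_le _ _) (norm_sub_le _ _)).trans ?_)
      linarith
    · simp only [p, map_sub, map_add, smul_add, sub_smul, smul_sub]
      abel
  have hsmall : ∀ (i i' : Fin m) (u e : E d), ‖u‖ = 1 → ‖e‖ ≤ 5 / 2 * a + 2 * d →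
      13 / 5 * a * ((i : ℝ) - i') + inner ℝ u e = 0 → i = i' := by
    intro i i' u e hu he h0
    have h1 := (abs_real_inner_le_norm u e).trans (by rw [hu, one_mul] : _ ≤ ‖e‖)
    have h2 : |13 / 5 * a * ((i : ℝ) - i')| ≤ ‖e‖ := by
      rw [eq_neg_of_add_eq_zero_left h0, abs_neg]
      exact h1
    rw [abs_mul, abs_of_pos (by positivity)] at h2
    have h3 : |(i : ℝ) - i'| < 1 := by
      by_contra h4
      have := mul_le_mul_of_nonneg_left (not_lt.1 h4) (by positivity : 0 ≤ 13 / 5 * a)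
      linarith
    have h4 : |((i : ℕ) : ℤ) - (i' : ℕ)| < 1 := by exact_mod_cast h3
    rw [Int.abs_lt_one_iff, sub_eq_zero] at h4
    exact Fin.ext (by exact_mod_cast h4)
  refine ⟨Fin m × Fin m × O, inferInstance, fun j => flo (p j.1 j.2.1) + j.2.2, _,
    fun z => (pat X (y z) t, mk (z - Φ (y z))), hfin.toFinset ×ˢ hBf.toFinset.image mk, ?_,
    fun z => ?_, ?_, fun z z' hz => ?_⟩
  · rintro ⟨i, j, o⟩ ⟨i', j', o'⟩ hs
    obtain ⟨e, he, h1⟩ := hdiff i j i' j' o o'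
    obtain ⟨h2, h3⟩ := horth _ hs
    have h21 : inner ℝ u₂ u₁ = 0 := by rw [real_inner_comm, h12]
    rw [h1] at h2 h3
    simp only [inner_add_right, inner_smul_right, real_inner_self_eq_norm_sq, n₁, n₂, h12, h21,
      one_pow, mul_one, mul_zero, add_zero, zero_add] at h2 h3
    obtain rfl := hsmall i i' u₁ e n₁ he h2
    obtain rfl := hsmall j j' u₂ e n₂ he h3
    have h4 : (o : Fin d → ℤ) - o' ∈ S := by simpa using hs
    rw [Subtype.ext (hinj o.2 o'.2 (QuotientAddGroup.eq_iff_sub_mem.2 h4))]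
  · exact Finset.mem_product.2 ⟨hfin.mem_toFinset.2 ⟨y z, hy z, rfl⟩,
      Finset.mem_image_of_mem _ (hBf.mem_toFinset.2 (hyz z))⟩
  · have h1 : 0 < O.card := by
      rw [← Finset.card_image_of_injOn hinj, himg]
      exact Finset.card_pos.2 ⟨_, Finset.mem_image_of_mem _ (hBf.mem_toFinset.2 (hyz 0))⟩
    have h2 : hfin.toFinset.card < m * m := by
      rw [← Set.ncard_eq_toFinset_card _ hfin, ← sq]
      exact_mod_cast hcard.trans_le (pow_le_pow_left₀ (by positivity) (Nat.le_ceil _) 2)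
    rw [Finset.card_product, ← himg, Finset.card_image_of_injOn hinj, Fintype.card_prod,
      Fintype.card_prod, Fintype.card_fin, Fintype.card_coe, ← mul_assoc]
    exact Nat.mul_lt_mul_of_pos_right h2 h1
  · obtain ⟨h1, h2⟩ := Prod.ext_iff.1 hz
    refine ⟨_, QuotientAddGroup.eq_iff_sub_mem.1 h2, ?_⟩
    rintro ⟨i, j, o⟩ ⟨i', j', o'⟩ k hk
    obtain ⟨e, he, h3⟩ := hdiff i j i' j' o o'
    have h4 := A.agree (hy z) (hy z') (ρ := 3 * R) (by positivity) h1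
      (v := z - Φ (y z) + (flo (p i j) + o.1 - (flo (p i' j') + o'.1)) + k) ?_
    · convert h4 using 2 <;> (simp only []; abel)
    have hm : (m : ℝ) * R ≤ t / 5 + R := by
      have h5 := mul_le_mul_of_nonneg_right
        (Nat.ceil_lt_add_one (a := t / (5 * R)) (by positivity)).le hR.le
      rwa [add_mul, one_mul, show t / (5 * R) * R = t / 5 by field_simp] at h5
    have hb : ∀ i i' : Fin m, ((i : ℝ) - i') ^ 2 ≤ (m : ℝ) ^ 2 := fun i i' => by
      have h5 : (i : ℝ) ≤ m := by exact_mod_cast i.2.le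
      have h6 : (i' : ℝ) ≤ m := by exact_mod_cast i'.2.le
      have h7 : (0 : ℝ) ≤ i := Nat.cast_nonneg _
      have h8 : (0 : ℝ) ≤ i' := Nat.cast_nonneg _
      exact sq_le_sq' (by linarith) (by linarith)
    have h5 : ‖((i : ℝ) - i') • u₁ + ((j : ℝ) - j') • u₂‖ ≤ 3 / 2 * m := by
      refine abs_le_of_sq_le_sq' ?_ (by positivity) |>.2
      rw [norm_add_sq_real, inner_smul_left, inner_smul_right, h12, norm_smul, norm_smul, n₁, n₂]
      simp only [mul_one, mul_zero, add_zero, Real.norm_eq_abs, sq_abs]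
      nlinarith [hb i i', hb j j', sq_nonneg (m : ℝ)]
    have h6 : ‖cr (flo (p i j) + o.1 - (flo (p i' j') + o'.1))‖ ≤
        13 / 5 * a * (3 / 2 * m) + (5 / 2 * a + 2 * d) := by
      rw [h3]
      refine (norm_add_le _ _).trans (add_le_add ?_ he)
      rw [norm_smul, Real.norm_of_nonneg (by positivity)]
      exact mul_le_mul_of_nonneg_left h5 (by positivity)
    rw [map_add, map_add]
    refine norm_add₃_le.trans ?_
    have h7 := hyz z
    have h8 := hκ k hk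
    have h9 := mul_le_mul_of_nonneg_left hm hq.le
    have h10 := mul_le_mul_of_nonneg_left ht1.le hq.le
    have h11 : 13 / 5 * a * (3 / 2 * m) = 39 / 10 * (q * (m * R)) := by rw [ha]; ring
    have h12 := (norm_nonneg _).trans h8
    linarith

/-- Periods of the configuration come from translations of the Delone set. -/
theorem lift (h : IsDelone r R X) (hR : 0 < R) {v : Fin d → ℤ} (hv : v ∈ Per (col X Φ (3 * R))) :
    ∃ w : E d, ∀ x ∈ X, x + w ∈ X ∧ Φ (x + w) = Φ x + v := by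
  have key : ∀ x ∈ X, ∃ y ∈ X, Φ y = Φ x + v ∧ pat X x (3 * R) = pat X y (3 * R) := fun x hx => by
    have h1 : pat X x (3 * R) ∈ col X Φ (3 * R) (Φ x) := ⟨x, hx, rfl, rfl⟩
    rw [← hv (Φ x)] at h1
    exact h1
  obtain ⟨x₀, hx₀, -⟩ := h.2 0
  obtain ⟨y₀, hy₀, h1, -⟩ := key x₀ hx₀
  refine ⟨y₀ - x₀, h.chain' hR hx₀ _ (by simpa using ⟨hy₀, h1⟩) ?_⟩
  rintro x hx x' hx' h2 ⟨h3, h4⟩
  obtain ⟨y, hy, h5, h6⟩ := key x' hx'
  obtain rfl := A.inj hy h3 (h5.trans h4.symm)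
  have h7 : x - x' ∈ pat X x' (3 * R) := mem_pat.2 ⟨by simpa using hx, by rwa [norm_sub_rev]⟩
  rw [h6, mem_pat, show x' + (y₀ - x₀) + (x - x') = x + (y₀ - x₀) by abel] at h7
  refine ⟨h7.1, ?_⟩
  have h8 := A.tr x' hx' x hx _ h3 _ h7.1 (by abel)
  rw [h4] at h8
  rw [eq_add_of_sub_eq h8.symm]
  abel

/-- Pairs of a lattice period and the corresponding translation. -/
def lifts (X : Set (E d)) (Φ : E d → Fin d → ℤ) : AddSubgroup ((Fin d → ℤ) × E d) where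
  carrier := {p | ∀ x ∈ X, (x + p.2 ∈ X ∧ Φ (x + p.2) = Φ x + p.1) ∧
    (x + -p.2 ∈ X ∧ Φ (x + -p.2) = Φ x + -p.1)}
  add_mem' := fun {a b} ha hb x hx => by
    have h1 := (ha x hx).1
    have h2 := (hb _ h1.1).1
    have h3 := (hb x hx).2
    have h4 := (ha _ h3.1).2
    simp only [Prod.snd_add, Prod.fst_add, neg_add_rev, ← add_assoc]
    exact ⟨⟨h2.1, by rw [h2.2, h1.2]⟩, h4.1, by rw [h4.2, h3.2]⟩
  zero_mem' := fun x hx => by simpa using hx
  neg_mem' := fun {a} ha x hx => by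
    simpa only [Prod.snd_neg, Prod.fst_neg, neg_neg] using (ha x hx).symm

theorem lift' (h : IsDelone r R X) (hR : 0 < R) {v : Fin d → ℤ} (hv : v ∈ Per (col X Φ (3 * R))) :
    ∃ w : E d, (v, w) ∈ lifts X Φ := by
  obtain ⟨w, hw⟩ := A.lift h hR hv
  obtain ⟨w', hw'⟩ := A.lift h hR ((Per _).neg_mem hv)
  obtain ⟨x₀, hx₀, -⟩ := h.2 0
  have h1 := hw' _ (hw x₀ hx₀).1
  have h2 := A.inj h1.1 hx₀ (by rw [h1.2, (hw x₀ hx₀).2, add_neg_cancel_right])
  obtain rfl : w' = -w := by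
    rw [add_assoc, add_eq_left] at h2
    exact eq_neg_of_add_eq_zero_right h2
  exact ⟨w, fun x hx => ⟨hw x hx, hw' x hx⟩⟩

theorem norm_lift {x₀ : E d} (hx₀ : x₀ ∈ X) {p : (Fin d → ℤ) × E d} (hp : p ∈ lifts X Φ) :
    ‖cr p.1‖ ≤ 11 * q / 10 * ‖p.2‖ := by
  have h1 := A.near x₀ hx₀ _ (hp x₀ hx₀).1.1
  rw [(hp x₀ hx₀).1.2, add_sub_cancel_left, add_sub_cancel_left] at h1
  have h2 := norm_sub_norm_le (cr p.1) (q • p.2)
  rw [norm_smul, Real.norm_of_nonneg A.pos.le] at h2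
  linarith

theorem indep {x₀ : E d} (hx₀ : x₀ ∈ X) {n : ℕ} {v : Fin n → Fin d → ℤ} {w : Fin n → E d}
    (hw : ∀ i, (v i, w i) ∈ lifts X Φ) (hv : LinearIndependent ℚ fun i => cq (v i)) :
    LinearIndependent ℝ w := by
  have hq := A.pos
  have hv' := (linearIndependent_algebraMap_comp_iff (S := ℝ)).2 hv
  rw [Fintype.linearIndependent_iff] at hv' ⊢
  intro c hc
  refine hv' c ?_
  suffices h : ∑ i, c i • cr (v i) = 0 by
    ext j
    simpa [cq_apply] using congrArg (fun x : E d => x j) h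
  have hfl : ∀ {u : Fin n → E d} (N : ℕ), ‖∑ i, ⌊N * c i⌋ • u i - (N : ℝ) • ∑ i, c i • u i‖ ≤
      ∑ i, ‖u i‖ := fun {u} N => by
    rw [Finset.smul_sum, ← Finset.sum_sub_distrib]
    refine (norm_sum_le _ _).trans (Finset.sum_le_sum fun i _ => ?_)
    rw [← Int.cast_smul_eq_zsmul ℝ, smul_smul, ← sub_smul, norm_smul, Real.norm_eq_abs]
    refine mul_le_of_le_one_left (norm_nonneg _) (abs_le.2 ⟨?_, ?_⟩)
    · linarith [Int.lt_floor_add_one (N * c i)]
    · linarith [Int.floor_le (N * c i)]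
  have hb : ∀ N : ℕ, N * ‖∑ i, c i • cr (v i)‖ ≤
      11 * q / 10 * ∑ i, ‖w i‖ + ∑ i, ‖cr (v i)‖ := fun N => by
    have h1 := A.norm_lift hx₀ (sum_mem fun i (_ : i ∈ Finset.univ) =>
      (lifts X Φ).zsmul_mem (hw i) ⌊N * c i⌋)
    simp only [Prod.fst_sum, Prod.snd_sum, Prod.smul_mk, map_sum, map_zsmul] at h1
    have h2 := hfl (u := w) N
    rw [hc, smul_zero, sub_zero] at h2
    have h3 := hfl (u := fun i => cr (v i)) N
    have h4 := norm_sub_norm_le ((N : ℝ) • ∑ i, c i • cr (v i)) (∑ i, ⌊N * c i⌋ • cr (v i))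
    rw [norm_smul, Real.norm_natCast, norm_sub_rev] at h4
    have h5 := mul_le_mul_of_nonneg_left h2 (by positivity : 0 ≤ 11 * q / 10)
    linarith
  by_contra hne
  obtain ⟨N, hN⟩ := exists_nat_gt
    ((11 * q / 10 * ∑ i, ‖w i‖ + ∑ i, ‖cr (v i)‖) / ‖∑ i, c i • cr (v i)‖)
  rw [div_lt_iff₀ (norm_pos_iff.2 hne)] at hN
  exact absurd (hb N) (not_le.2 hN)

end Addr

theorem main_pos {X : Set (E d)} {r R : ℝ} (hr : 0 < r) (hR : 0 < R) (h : IsDelone r R X)
    (hp : ∀ t₀ : ℝ, ∃ t, t₀ < t ∧ (patches X t).Finite ∧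
      ((patches X t).ncard : ℝ) < (t / (5 * R)) ^ 2) : HasPeriods X (d - 1) := by
  obtain ⟨t, ht, hfin, -⟩ := hp (3 * R)
  have hfin' := patches_finite_mono hfin ht.le
  obtain ⟨q, hq, Φ, h1, h2⟩ := h.approx hr hR hfin' ((20 * d + 1) / R)
  have A : Addr X q Φ := ⟨lt_of_lt_of_le (by positivity) hq, h1, h2⟩
  have h3 := core _ (col_finite Φ hfin') (A.low h hR ((div_le_iff₀ hR).1 hq) hp)
  obtain ⟨f, hf, -, hind⟩ := Submodule.exists_fun_fin_finrank_span_eq ℚ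
    (cq '' (Per (col X Φ (3 * R)) : Set (Fin d → ℤ)))
  choose v hv hvf using hf
  choose w hw using fun i => A.lift' h hR (hv i)
  obtain ⟨x₀, hx₀, -⟩ := h.2 0
  have h4 := A.indep hx₀ hw (by simpa only [hvf] using hind)
  have h5 : d - 1 ≤ rk (Per (col X Φ (3 * R))) := by omega
  refine ⟨w ∘ Fin.castLE h5, h4.comp _ (Fin.castLE_injective h5), fun i x =>
    ⟨fun hx => ?_, fun hx => (hw _ x hx).1.1⟩⟩
  simpa using (hw (Fin.castLE h5 i) _ hx).2.1

end Pool.Agent.P.MP_90314f_co
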